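import Pool.Agent.Helper64.NIG.OfGD
import Pool.Agent.Helper7.NI.Inst

/-!
# Project FQ (MP_0f6f3f_an), layer NI: the geometry `Geo j` of the instance `ndOf D Γ`

`tw_low`: `tw l (ea (s e_j) p ea c) ≥ s top l j + ∑ top l c - R` for `p ∈ P_j` in a compact set, `s, c ≥ 0` (the first column: `p` preserves the top level of `ad H_j`). `geo`: all clauses of `Helper35.NI.ND.Geo`.
-/

set_option autoImplicit false

set_option linter.unusedSectionVars false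

open Filter Topology Matrix
open scoped Matrix.Norms.L2Operator

namespace Pool.Agent.Helper64.NIG

open Pool.Agent.Helper84.GDL Pool.Agent.Helper35.NI Pool.Agent.Helper7.NI Pool.Agent.Helper20.TB

variable {𝔾 : Type} [Group 𝔾] [TopologicalSpace 𝔾] {ι : Type} [Fintype ι] [DecidableEq ι] (D : GD 𝔾 ι)

section Low

variable [IsTopologicalGroup 𝔾]

/-- An element of `P_j` preserves the top level of `ad H_j` in every representation. -/
theorem top_level (l j : ι) {p : 𝔾} (hp : p ∈ PP D j) {k : Fin (D.d l + 1)} (hk : 1 ≤ D.n l k j) : D.rho l p k 0 = 0 := by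
  obtain ⟨C', hC', h⟩ := D.par j {p} isCompact_singleton
  have hc : Continuous fun g : 𝔾 => |D.rho l g k 0| := ((D.rho_cont l).matrix_elem k 0).abs
  obtain ⟨M, hM⟩ := (hC'.image hc).bddAbove
  by_contra hne
  have h1 : ∀ t : ℝ, 0 ≤ t → Real.exp (D.n l k j * t) * |D.rho l p k 0| ≤ M := by
    intro t ht
    have h2 := hM ⟨_, h p rfl hp t ht, rfl⟩
    change |D.rho l (D.ea (Pi.single j (-t)) * p * D.ea (Pi.single j t)) k 0| ≤ M at h2
    rw [conj_apply, abs_mul, Real.abs_exp, D.n_zero] at h2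
    have e : (D.top l j - D.n l k j) * -t + (D.top l j - ((0 : ℕ) : ℝ)) * t = D.n l k j * t := by
      push_cast
      ring
    rwa [e] at h2
  have hn : (1 : ℝ) ≤ D.n l k j := by exact_mod_cast hk
  have hpos := abs_pos.2 hne
  have hM0 : 0 ≤ M := le_trans (by positivity) (h1 0 le_rfl)
  have h3 := h1 (M / |D.rho l p k 0|) (by positivity)
  have h4 : M / |D.rho l p k 0| + 1 ≤ Real.exp (D.n l k j * (M / |D.rho l p k 0|)) := by
    refine le_trans (Real.add_one_le_exp _) (Real.exp_le_exp.2 ?_)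
    have : 0 ≤ M / |D.rho l p k 0| := by positivity
    nlinarith
  have h5 : (M / |D.rho l p k 0| + 1) * |D.rho l p k 0| ≤ M := (mul_le_mul_of_nonneg_right h4 hpos.le).trans h3
  rw [add_mul, div_mul_cancel₀ _ hpos.ne', one_mul] at h5
  linarith

theorem tw_low (l j : ι) {p : 𝔾} (hp : p ∈ PP D j) {s : ℝ} {c : ι → ℝ} :
    D.top l j * s + ∑ m, D.top l m * c m - D.tw l p⁻¹ ≤ D.tw l (D.ea (Pi.single j s) * p * D.ea c) := by
  set e0 : Fin (D.d l + 1) → ℝ := Pi.single 0 1 with he0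
  set E := Real.exp (D.top l j * s + ∑ m, D.top l m * c m) with hE
  -- the first column
  have h1 : D.rho l (D.ea (Pi.single j s) * p * D.ea c) *ᵥ e0 = E • (D.rho l p *ᵥ e0) := by
    funext k
    rw [Pi.smul_apply, smul_eq_mul, he0, mulVec_single_one, mulVec_single_one, Matrix.col_apply, Matrix.col_apply,
      map_mul, map_mul, D.rho_ea, D.rho_ea, mul_diagonal, diagonal_mul, ex_single]
    by_cases hk : D.n l k j = 0
    · rw [hk, hE, Real.exp_add]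
      have e1 : ∑ m, (D.top l m - D.n l 0 m) * c m = ∑ m, D.top l m * c m :=
        Finset.sum_congr rfl fun m _ => by rw [D.n_zero, Nat.cast_zero, sub_zero]
      rw [e1, Nat.cast_zero, sub_zero]
      ring
    · rw [top_level D l j hp (Nat.one_le_iff_ne_zero.2 hk)]
      ring
  have h2 : e0 = D.rho l p⁻¹ *ᵥ (D.rho l p *ᵥ e0) := by
    rw [mulVec_mulVec, ← map_mul, inv_mul_cancel, map_one, one_mulVec]
  have n0 : ‖WithLp.toLp 2 e0‖ = 1 := by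
    rw [he0, EuclideanSpace.norm_eq, Real.sqrt_eq_one]
    simp [Pi.single_apply]
  have h3 := Matrix.l2_opNorm_mulVec (D.rho l p⁻¹) (WithLp.toLp 2 (D.rho l p *ᵥ e0) : EuclideanSpace ℝ (Fin (D.d l + 1)))
  have h4 := Matrix.l2_opNorm_mulVec (D.rho l (D.ea (Pi.single j s) * p * D.ea c)) (WithLp.toLp 2 e0 : EuclideanSpace ℝ (Fin (D.d l + 1)))
  have h3' : 1 ≤ ‖D.rho l p⁻¹‖ * ‖WithLp.toLp 2 (D.rho l p *ᵥ e0)‖ := by
    refine le_trans (le_of_eq ?_) h3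
    rw [← n0]
    conv_lhs => rw [h2]
    rfl
  have h4' : E * ‖WithLp.toLp 2 (D.rho l p *ᵥ e0)‖ ≤ ‖D.rho l (D.ea (Pi.single j s) * p * D.ea c)‖ := by
    rw [n0, mul_one] at h4
    refine le_trans (le_of_eq ?_) h4
    have h5 : ‖WithLp.toLp 2 (D.rho l (D.ea (Pi.single j s) * p * D.ea c) *ᵥ e0)‖ = E * ‖WithLp.toLp 2 (D.rho l p *ᵥ e0)‖ := by
      rw [h1, WithLp.toLp_smul, norm_smul, Real.norm_eq_abs, hE, Real.abs_exp]
    rw [← h5]
    rfl
  rw [D.norm_rho] at h3' h4'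
  have h6 : Real.exp (D.top l j * s + ∑ m, D.top l m * c m - D.tw l p⁻¹) ≤ Real.exp (D.tw l (D.ea (Pi.single j s) * p * D.ea c)) := by
    refine le_trans ?_ h4'
    rw [Real.exp_sub, ← hE, div_le_iff₀ (Real.exp_pos _), mul_assoc]
    have h7 : 1 ≤ ‖WithLp.toLp 2 (D.rho l p *ᵥ e0)‖ * Real.exp (D.tw l p⁻¹) := by rwa [mul_comm]
    have h8 : 0 ≤ E := (Real.exp_pos _).le
    nlinarith
  exact Real.exp_le_exp.1 h6

theorem tw_kak {l : ι} {k k' : 𝔾} (hk : k ∈ D.K) (hk' : k' ∈ D.K) {c : ι → ℝ} (hc : ∀ j, 0 ≤ c j) :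
    D.tw l (k * D.ea c * k') = ∑ j, D.top l j * c j := by
  unfold GD.tw
  rw [D.mu_kak hk hk' hc]

theorem tw_single {l j : ι} {s : ℝ} (hs : 0 ≤ s) : D.tw l (D.ea (Pi.single j s)) = D.top l j * s := by
  unfold GD.tw
  rw [D.mu_ea (fun i => by
    by_cases hi : i = j
    · subst hi
      rw [Pi.single_eq_same]
      exact hs
    · rw [Pi.single_eq_of_ne hi])]
  rw [Finset.sum_eq_single j]
  · rw [Pi.single_eq_same]
  · intro m _ hm
    rw [Pi.single_eq_of_ne hm, mul_zero]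
  · intro h
    exact absurd (Finset.mem_univ _) h

/-- Hilbert–Schmidt norms. -/
theorem hs_low (l : ι) (g : 𝔾) : Real.exp (2 * D.tw l g) ≤ hs (D.rho l g) := by
  rw [rho_eq D l g, hs_ldr (orthL D l g) (orthR D l g)]
  refine le_trans (le_of_eq ?_) (Finset.single_le_sum (f := fun k => dv D l g k ^ 2) (fun k _ => sq_nonneg _) (Finset.mem_univ 0))
  rw [dv_zero, ← Real.exp_nat_mul]
  push_cast
  rfl

theorem hs_up (l : ι) (g : 𝔾) : hs (D.rho l g) ≤ ((D.d l + 1 : ℕ) : ℝ) * Real.exp (2 * D.tw l g) := by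
  rw [rho_eq D l g, hs_ldr (orthL D l g) (orthR D l g)]
  have h1 : ∀ k ∈ Finset.univ, dv D l g k ^ 2 ≤ Real.exp (2 * D.tw l g) := fun k _ => by
    refine (pow_le_pow_left₀ (dv_pos D l g k).le (dv_le' D l g k) 2).trans (le_of_eq ?_)
    rw [dv_zero, ← Real.exp_nat_mul]
    push_cast
    rfl
  refine (Finset.sum_le_card_nsmul _ _ _ h1).trans (le_of_eq ?_)
  rw [nsmul_eq_mul, Finset.card_univ, Fintype.card_fin]

/-- No cancellation in the Hilbert–Schmidt norms. -/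
theorem hs_mul_low (l : ι) {g h : 𝔾} {R : ℝ} (hR : D.tw l g + D.tw l h - R ≤ D.tw l (g * h)) :
    Real.exp (-(2 * R)) / (∑ m, ((D.d m + 1 : ℕ) : ℝ)) ^ 2 * (hs (D.rho l g) * hs (D.rho l h)) ≤ hs (D.rho l (g * h)) := by
  have h1 := hs_low D l (g * h)
  have h2 := hs_up D l g
  have h3 := hs_up D l h
  set N : ℝ := ∑ m, ((D.d m + 1 : ℕ) : ℝ) with hN
  have hN1 : ((D.d l + 1 : ℕ) : ℝ) ≤ N :=
    Finset.single_le_sum (f := fun m => ((D.d m + 1 : ℕ) : ℝ)) (fun m _ => Nat.cast_nonneg _) (Finset.mem_univ l)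
  have hl : (0 : ℝ) < ((D.d l + 1 : ℕ) : ℝ) := by positivity
  have hN0 : 0 < N := hl.trans_le hN1
  have h4 : hs (D.rho l g) * hs (D.rho l h) ≤ N ^ 2 * Real.exp (2 * D.tw l g + 2 * D.tw l h) := by
    calc hs (D.rho l g) * hs (D.rho l h) ≤ (N * Real.exp (2 * D.tw l g)) * (N * Real.exp (2 * D.tw l h)) := by
          refine mul_le_mul (h2.trans ?_) (h3.trans ?_) (hs_nonneg _) (by positivity)
          · exact mul_le_mul_of_nonneg_right hN1 (Real.exp_pos _).le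
          · exact mul_le_mul_of_nonneg_right hN1 (Real.exp_pos _).le
      _ = N ^ 2 * Real.exp (2 * D.tw l g + 2 * D.tw l h) := by rw [Real.exp_add]; ring
  refine le_trans ?_ h1
  rw [div_mul_eq_mul_div, div_le_iff₀ (by positivity)]
  calc Real.exp (-(2 * R)) * (hs (D.rho l g) * hs (D.rho l h))
      ≤ Real.exp (-(2 * R)) * (N ^ 2 * Real.exp (2 * D.tw l g + 2 * D.tw l h)) := mul_le_mul_of_nonneg_left h4 (Real.exp_pos _).le
    _ = Real.exp (2 * (D.tw l g + D.tw l h - R)) * N ^ 2 := by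
        have e : 2 * (D.tw l g + D.tw l h - R) = -(2 * R) + (2 * D.tw l g + 2 * D.tw l h) := by ring
        rw [e, Real.exp_add (-(2 * R))]
        ring
    _ ≤ Real.exp (2 * D.tw l (g * h)) * N ^ 2 := by
        refine mul_le_mul_of_nonneg_right (Real.exp_le_exp.2 ?_) (sq_nonneg _)
        linarith

end Low


section Main

variable [IsTopologicalGroup 𝔾] [T2Space 𝔾] [LocallyCompactSpace 𝔾] [SigmaCompactSpace 𝔾]

/-- Vectors close to a given direction. -/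
theorem opp_vec {V : Type*} [NormedAddCommGroup V] [InnerProductSpace ℝ V] {x y e : V} (hx : ‖x‖ = 1) (hy : ‖y‖ = 1) (he : ‖e‖ = 1)
    {κ : ℝ} (h0 : 0 < κ) (h1 : κ ≤ 1) (hxe : κ ≤ |inner ℝ x e|) (hye : 1 - κ ^ 2 / 16 ≤ (inner ℝ y e) ^ 2) : κ / 4 ≤ |inner ℝ x y| := by
  set c := inner ℝ y e with hc
  set y' := y - c • e with hy'
  have h2 : ‖y'‖ ^ 2 = 1 - c ^ 2 := by
    rw [hy', norm_sub_sq_real, norm_smul, he, hy, inner_smul_right, ← hc, Real.norm_eq_abs, mul_one, sq_abs]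
    ring
  have h3 : ‖y'‖ ≤ κ / 4 := by
    have : ‖y'‖ ^ 2 ≤ (κ / 4) ^ 2 := by rw [h2]; nlinarith
    exact (sq_le_sq₀ (norm_nonneg _) (by positivity)).1 this
  have h4 : inner ℝ x y = c * inner ℝ x e + inner ℝ x y' := by
    rw [hy', inner_sub_right, inner_smul_right]
    ring
  have h5 : |inner ℝ x y'| ≤ κ / 4 := by
    refine (abs_real_inner_le_norm x y').trans ?_
    rwa [hx, one_mul]
  have h6 : |c| ≤ 1 := by
    refine (abs_real_inner_le_norm y e).trans ?_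
    rw [hy, he, one_mul]
  have h7 : 15 / 16 ≤ |c| := by
    have h8 : |c| ^ 2 = c ^ 2 := sq_abs c
    have h9 := abs_nonneg c
    nlinarith
  have h10 : 15 / 16 * κ ≤ |c * inner ℝ x e| := by
    rw [abs_mul]
    exact mul_le_mul h7 hxe h0.le (abs_nonneg _)
  rw [h4]
  have h11 := abs_sub_abs_le_abs_add (c * inner ℝ x e) (inner ℝ x y')
  linarith

variable (Γ : Subgroup 𝔾) [DiscreteTopology Γ] (h1 : ∀ l, ∃ i, ∀ j, D.n l i j = if j = l then 1 else 0)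
  (h2 : ∀ j, Dense {g | D.rho j g 0 0 ≠ 0}) (j : ι)

/-- The compact set of the bounded parts. -/
def Zc (C : ℝ) : Set 𝔾 := D.ea '' Set.Icc 0 (fun _ => C)

theorem isCompact_Zc (C : ℝ) : IsCompact (Zc D C) := isCompact_Icc.image D.ea_cont

/-- Right data. -/
def FF (κ : ℝ) (e : EuclideanSpace ℝ (Fin (D.d j + 1))) : Set 𝔾 := {k | κ ≤ |inner ℝ (WithLp.toLp 2 fun a => D.rho j k 0 a) e|}

/-- Left data. -/
def EE (d : ℝ) (e : EuclideanSpace ℝ (Fin (D.d j + 1))) : Set 𝔾 := {k | 1 - d ≤ (inner ℝ (WithLp.toLp 2 fun a => D.rho j k a 0) e) ^ 2}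

theorem FE_opp {κ : ℝ} (h0 : 0 < κ) (hκ1 : κ ≤ 1) {e : EuclideanSpace ℝ (Fin (D.d j + 1))} (he : ‖e‖ = 1) :
    ∀ k ∈ FF D j κ e, k ∈ D.K → ∀ l ∈ EE D j (κ ^ 2 / 16) e, l ∈ D.K → κ / 4 ≤ |D.rho j (k * l) 0 0| := by
  intro k hk hkK l hl hlK
  have hx : ‖(WithLp.toLp 2 fun a => D.rho j k 0 a : EuclideanSpace ℝ (Fin (D.d j + 1)))‖ = 1 := by
    have h := orth_row (D.orth j k hkK) 0
    rw [EuclideanSpace.norm_eq, Real.sqrt_eq_one]
    simp only [Real.norm_eq_abs, sq_abs]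
    exact h
  have hy : ‖(WithLp.toLp 2 fun a => D.rho j l a 0 : EuclideanSpace ℝ (Fin (D.d j + 1)))‖ = 1 := by
    have h := orth_col (D.orth j l hlK) 0
    rw [EuclideanSpace.norm_eq, Real.sqrt_eq_one]
    simp only [Real.norm_eq_abs, sq_abs]
    exact h
  have h3 := opp_vec hx hy he h0 hκ1 hk hl
  have h4 : inner ℝ (WithLp.toLp 2 fun a => D.rho j k 0 a : EuclideanSpace ℝ (Fin (D.d j + 1)))
      (WithLp.toLp 2 fun a => D.rho j l a 0) = D.rho j (k * l) 0 0 := by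
    rw [PiLp.inner_apply, map_mul, mul_apply]
    refine Finset.sum_congr rfl fun a _ => ?_
    simp [mul_comm]
  rwa [h4] at h3

theorem update_nonneg {c : ι → ℝ} (hc : ∀ i, 0 ≤ c i) : ∀ i, 0 ≤ (c - Pi.single j (c j) : ι → ℝ) i := by
  intro i
  rw [Pi.sub_apply]
  by_cases hi : i = j
  · subst hi
    rw [Pi.single_eq_same, sub_self]
  · rw [Pi.single_eq_of_ne hi, sub_zero]
    exact hc i

theorem update_le {c : ι → ℝ} {C : ℝ} (hC : 0 ≤ C) (hc : ∀ i, i ≠ j → c i ≤ C) : ∀ i, (c - Pi.single j (c j) : ι → ℝ) i ≤ C := by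
  intro i
  rw [Pi.sub_apply]
  by_cases hi : i = j
  · subst hi
    rw [Pi.single_eq_same, sub_self]
    exact hC
  · rw [Pi.single_eq_of_ne hi, sub_zero]
    exact hc i hi

/-- Elements of type `j`. -/
noncomputable def mkW {C κ : ℝ} (hC : 0 ≤ C) {e : EuclideanSpace ℝ (Fin (D.d j + 1))} {g : 𝔾} (h3 : ∀ i, i ≠ j → D.mu g i ≤ C)
    (h4 : D.kR g ∈ FF D j κ e) : ((tg D h1 h2).toN j).W (Zc D C) (FF D j κ e) g where
  k1 := D.kL g
  k2 := D.kR g
  b := D.ea (D.mu g - Pi.single j (D.mu g j))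
  s := D.mu g j
  s0 := D.mu_nonneg g j
  hk1 := D.kL_mem g
  hk2 := D.kR_mem g
  hF := h4
  hbZ := ⟨_, ⟨fun i => update_nonneg j (D.mu_nonneg g) i, fun i => update_le j hC h3 i⟩, rfl⟩
  hbm := ea_PM D j _
  comm := fun t => D.ea_comm _ _
  eq := by
    conv_lhs => rw [D.kak g]
    congr 2
    change D.ea (D.mu g) = D.ea (Pi.single j (D.mu g j)) * D.ea (D.mu g - Pi.single j (D.mu g j))
    rw [← D.ea_add, add_sub_cancel]

/-- Elements with a large gap. -/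
noncomputable def mkH {L d : ℝ} {e : EuclideanSpace ℝ (Fin (D.d j + 1))} {h : 𝔾} (h3 : L ≤ D.mu h j)
    (h4 : D.kL h ∈ EE D j d e) : ((tg D h1 h2).toN j).H L (EE D j d e) h where
  l1 := D.kL h
  l2 := D.kR h
  d := D.ea (D.mu h)
  v := dv D j h
  hl1 := D.kL_mem h
  hl2 := D.kR_mem h
  hE := h4
  hd := D.rho_ea j _
  v0 := dv_pos D j h 0
  gap := fun i hi => by
    rw [abs_of_pos (dv_pos D j h i)]
    refine (dv_le D j h hi).trans (mul_le_mul_of_nonneg_right (Real.exp_le_exp.2 (by linarith)) (dv_pos D j h 0).le)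
  eq := D.kak h

theorem tw_type {C : ℝ} {g : 𝔾} (h3 : ∀ i, i ≠ j → D.mu g i ≤ C) (hC : 0 ≤ C) (l : ι) :
    D.tw l g ≤ D.top l j * D.mu g j + ∑ l, ∑ m, D.top l m * C := by
  unfold GD.tw
  have h4 : ∑ m, D.top l m * D.mu g m = D.top l j * D.mu g j + ∑ m ∈ Finset.univ.erase j, D.top l m * D.mu g m :=
    (Finset.add_sum_erase _ _ (Finset.mem_univ j)).symm
  have h5 : ∑ m ∈ Finset.univ.erase j, D.top l m * D.mu g m ≤ ∑ m ∈ Finset.univ.erase j, D.top l m * C :=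
    Finset.sum_le_sum fun m hm => mul_le_mul_of_nonneg_left (h3 m (Finset.ne_of_mem_erase hm)) (D.top_nonneg l m)
  have h6 : ∑ m ∈ Finset.univ.erase j, D.top l m * C ≤ ∑ m, D.top l m * C :=
    Finset.sum_le_sum_of_subset_of_nonneg (Finset.erase_subset _ _) fun m _ _ => mul_nonneg (D.top_nonneg l m) hC
  have h7 : ∑ m, D.top l m * C ≤ ∑ l, ∑ m, D.top l m * C :=
    Finset.single_le_sum (f := fun l => ∑ m, D.top l m * C)
      (fun l _ => Finset.sum_nonneg fun m _ => mul_nonneg (D.top_nonneg l m) hC) (Finset.mem_univ l)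
  linarith

theorem tw_sandwich_low (l : ι) {x g y : 𝔾} : D.tw l g - D.tw l x⁻¹ - D.tw l y⁻¹ ≤ D.tw l (x * g * y) := by
  have h3 := D.tw_mul_le l x⁻¹ (x * g * y * y⁻¹)
  have h4 := D.tw_mul_le l (x * g * y) y⁻¹
  have e : x⁻¹ * (x * g * y * y⁻¹) = g := by group
  rw [e] at h3
  linarith

theorem tw_sandwich_up (l : ι) {x g y : 𝔾} : D.tw l (x * g * y) ≤ D.tw l x + D.tw l g + D.tw l y := by
  have h3 := D.tw_mul_le l (x * g) y
  have h4 := D.tw_mul_le l x g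
  linarith

include h2 in
open scoped Pointwise in
/-- **The geometry.** -/
theorem geo : (ndOf D Γ h1).Geo j := by
  intro C κ hC hκ
  set T := (tg D h1 h2).toN j with hT
  set κ0 := min κ 1 with hκ0
  have hκp : 0 < κ0 := lt_min hκ one_pos
  have hκ1 : κ0 ≤ 1 := min_le_right _ _
  obtain ⟨L0, B, hB, hstr⟩ := T.structure_lemma (isCompact_Zc D C) (show 0 < κ0 / 4 by positivity)
  obtain ⟨B1, hB1, hcell⟩ := T.cell_compact D.cpt (show 0 < κ0 / 4 by positivity)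
  obtain ⟨C2, hC2, hcPm⟩ := T.cPm (Zc D C * B1) ((isCompact_Zc D C).mul hB1)
  obtain ⟨R, hR0, hR⟩ := D.exists_bd (B := B ∪ (D.K : Set 𝔾) ∪ B1 ∪ C2) (((hB.union D.cpt).union hB1).union hC2)
  obtain ⟨Rm, hRm0, hRm⟩ := D.mu_shift hB
  have hRB : ∀ g ∈ B, ∀ l, D.tw l g ≤ R ∧ D.tw l g⁻¹ ≤ R := fun g hg => hR g (Or.inl (Or.inl (Or.inl hg)))
  have hRK : ∀ g ∈ D.K, ∀ l, D.tw l g ≤ R ∧ D.tw l g⁻¹ ≤ R := fun g hg => hR g (Or.inl (Or.inl (Or.inr hg)))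
  have hRB1 : ∀ g ∈ B1, ∀ l, D.tw l g ≤ R ∧ D.tw l g⁻¹ ≤ R := fun g hg => hR g (Or.inl (Or.inr hg))
  have hRC2 : ∀ g ∈ C2, ∀ l, D.tw l g ≤ R ∧ D.tw l g⁻¹ ≤ R := fun g hg => hR g (Or.inr hg)
  obtain ⟨RC, hRC⟩ : ∃ RC : ℝ, RC = ∑ l, ∑ m, D.top l m * C := ⟨_, rfl⟩
  have hRC0 : 0 ≤ RC := by
    rw [hRC]
    exact Finset.sum_nonneg fun l _ => Finset.sum_nonneg fun m _ => mul_nonneg (D.top_nonneg l m) hC
  obtain ⟨CC, hCC⟩ : ∃ CC : ℝ, CC = ∑ i, ∑ l, |D.C i l| := ⟨_, rfl⟩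
  have hCCi : ∀ i, ∑ l, |D.C i l| ≤ CC := fun i => by
    rw [hCC]
    exact Finset.single_le_sum (f := fun i => ∑ l, |D.C i l|) (fun i _ => Finset.sum_nonneg fun l _ => abs_nonneg _) (Finset.mem_univ i)
  have hCC0 : 0 ≤ CC := by
    rw [hCC]
    exact Finset.sum_nonneg fun i _ => Finset.sum_nonneg fun l _ => abs_nonneg _
  obtain ⟨N, hN⟩ : ∃ N : ℝ, N = ∑ m, ((D.d m + 1 : ℕ) : ℝ) := ⟨_, rfl⟩
  have hN0 : 0 < N := by
    rw [hN]
    refine lt_of_lt_of_le ?_ (Finset.single_le_sum (f := fun m => ((D.d m + 1 : ℕ) : ℝ)) (fun m _ => Nat.cast_nonneg _) (Finset.mem_univ j))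
    positivity
  refine ⟨L0, κ0 ^ 2 / 16, Real.exp (-(2 * (RC + 5 * R))) / N ^ 2, Rm + C + CC * (RC + 4 * R), ∅, by positivity, by positivity, by positivity, ?_⟩
  intro e he
  have hFE := FE_opp D j hκp hκ1 he
  have hF : ∀ g : Γ, g ∈ (ndOf D Γ h1).Sv j C κ L0 e → D.kR (g : 𝔾) ∈ FF D j κ0 e := fun g hg =>
    le_trans (min_le_left _ _) hg.2.2
  have hW : ∀ g : Γ, g ∈ (ndOf D Γ h1).Sv j C κ L0 e → ∃ X : T.W (Zc D C) (FF D j κ0 e) (g : 𝔾), X.s = D.mu (g : 𝔾) j := fun g hg =>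
    ⟨mkW D h1 h2 j hC hg.1 (hF g hg), rfl⟩
  have hH : ∀ k : Γ, k ∈ (ndOf D Γ h1).Su j L0 (κ0 ^ 2 / 16) e → ∃ Y : T.H L0 (EE D j (κ0 ^ 2 / 16) e) (k : 𝔾),
      Y.d = D.ea (D.mu (k : 𝔾)) ∧ Y.l2 = D.kR (k : 𝔾) := fun k hk =>
    ⟨mkH D h1 h2 j hk.1 hk.2, rfl, rfl⟩
  have ha : ∀ s, T.a s = D.ea (Pi.single j s) := fun s => rfl
  refine ⟨{r | T.Good (Zc D C) (FF D j κ0 e) (EE D j (κ0 ^ 2 / 16) e) B L0 (r : 𝔾)}, ?_, ?_, ?_, ?_, ?_⟩
  · -- classification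
    intro r g k hg hgr hk hrk
    obtain ⟨X, -⟩ := hW g hg
    obtain ⟨X', -⟩ := hW _ hgr
    obtain ⟨Y, -⟩ := hH _ hrk
    obtain ⟨Y', -⟩ := hH k hk
    have e1 : ((r⁻¹ * k : Γ) : 𝔾) = (r : 𝔾)⁻¹ * k := by push_cast; rfl
    have e2 : (r : 𝔾) * ((r⁻¹ * k : Γ) : 𝔾) = (k : 𝔾) := by rw [e1]; group
    have e3 : ((g * r : Γ) : 𝔾) = (g : 𝔾) * r := by push_cast; rfl
    have h3 := hstr L0 le_rfl _ _ hFE (r : 𝔾) (g : 𝔾) ((r⁻¹ * k : Γ) : 𝔾) X (e3 ▸ X') Y (e2.symm ▸ Y')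
    rcases h3 with h3 | h3
    · exact Or.inl h3
    · right
      left
      have e4 : ((r⁻¹ : Γ) : 𝔾) = (r : 𝔾)⁻¹ := by push_cast; rfl
      change T.Good _ _ _ B L0 ((r⁻¹ : Γ) : 𝔾)
      rw [e4]
      exact h3
  · -- products `g r`
    intro g hg r hr i
    obtain ⟨r0, hr0, ⟨x, hx, y, hy, exy⟩, hgood, -⟩ := hr
    obtain ⟨X, hXs⟩ := hW g hg
    obtain ⟨x', hx', y', hy', e1⟩ := hgood _ X
    change Real.exp (-(2 * (RC + 5 * R))) / N ^ 2 * (hs (D.rho i (g : 𝔾)) * hs (D.rho i (r : 𝔾))) ≤ hs (D.rho i ((g * r : Γ) : 𝔾))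
    have e3 : ((g * r : Γ) : 𝔾) = (g : 𝔾) * r := by push_cast; rfl
    rw [e3, hN]
    refine hs_mul_low D i ?_
    rw [hXs, ha] at e1
    rw [ha] at exy
    have h3 := tw_type D j (C := C) hg.1 hC i
    rw [← hRC] at h3
    have h4 : D.tw i (r : 𝔾) ≤ R + D.top i j * r0 + R := by
      rw [exy]
      refine (tw_sandwich_up D i).trans ?_
      rw [tw_single D hr0]
      linarith [(hRB x hx i).1, (hRB y hy i).1]
    have h5 : D.top i j * (D.mu (g : 𝔾) j + r0) - R - R ≤ D.tw i ((g : 𝔾) * r) := by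
      rw [e1]
      refine le_trans ?_ (tw_sandwich_low D i)
      rw [tw_single D (add_nonneg (D.mu_nonneg _ j) hr0)]
      linarith [(hRB x' hx' i).2, (hRB y' hy' i).2]
    linarith
  · -- products `r k`
    intro r hr k hk i
    obtain ⟨r0, hr0, ⟨x, hx, y, hy, exy⟩, -, hgood⟩ := hr
    obtain ⟨Y, hYd, hYl⟩ := hH k hk
    obtain ⟨x', hx', p, hp, hpB, e1⟩ := hgood _ Y
    change Real.exp (-(2 * (RC + 5 * R))) / N ^ 2 * (hs (D.rho i (r : 𝔾)) * hs (D.rho i (k : 𝔾))) ≤ hs (D.rho i ((r * k : Γ) : 𝔾))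
    have e3 : ((r * k : Γ) : 𝔾) = (r : 𝔾) * k := by push_cast; rfl
    rw [e3, hN]
    refine hs_mul_low D i ?_
    rw [ha] at e1 exy
    have h4 : D.tw i (r : 𝔾) ≤ R + D.top i j * r0 + R := by
      rw [exy]
      refine (tw_sandwich_up D i).trans ?_
      rw [tw_single D hr0]
      linarith [(hRB x hx i).1, (hRB y hy i).1]
    have h5 : D.tw i (k : 𝔾) = ∑ m, D.top i m * D.mu (k : 𝔾) m := rfl
    have h6 : D.top i j * r0 + ∑ m, D.top i m * D.mu (k : 𝔾) m - R - R - R ≤ D.tw i ((r : 𝔾) * k) := by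
      have e4 : x' * D.ea (Pi.single j r0) * p * Y.d * Y.l2 = x' * (D.ea (Pi.single j r0) * p * D.ea (D.mu (k : 𝔾))) * D.kR (k : 𝔾) := by
        rw [hYd, hYl]
        group
      rw [e1, e4]
      refine le_trans ?_ (tw_sandwich_low D i)
      have h7 := tw_low D i j hp (s := r0) (c := D.mu (k : 𝔾))
      linarith [(hRB x' hx' i).2, (hRK _ (D.kR_mem (k : 𝔾)) i).2, (hRB p hpB i).2]
    linarith
  · -- gaps of `R1`
    intro r hr i hi
    obtain ⟨r0, hr0, ⟨x, hx, y, hy, exy⟩, -, -⟩ := hr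
    change D.mu (r : 𝔾) i ≤ _
    rw [ha] at exy
    have h3 := abs_le.1 (hRm x hx y hy (D.ea (Pi.single j r0)) i)
    rw [← exy, D.mu_ea (fun i => by
      by_cases hi : i = j
      · subst hi
        rw [Pi.single_eq_same]
        exact hr0
      · rw [Pi.single_eq_of_ne hi]), Pi.single_eq_of_ne hi] at h3
    have : 0 ≤ CC * (RC + 4 * R) := by positivity
    linarith [h3.2]
  · -- gaps of `g k`
    intro g hg k hk i hi
    change |D.mu ((g * k : Γ) : 𝔾) i - D.mu (k : 𝔾) i| ≤ _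
    have e3 : ((g * k : Γ) : 𝔾) = (g : 𝔾) * k := by push_cast; rfl
    rw [e3]
    obtain ⟨q, hq, hqB, p, hp, hpB, e4⟩ := hcell (D.kR (g : 𝔾) * D.kL (k : 𝔾)) (D.K.mul_mem (D.kR_mem _) (D.kL_mem _))
      (hFE _ (hF g hg) (D.kR_mem _) _ hk.2 (D.kL_mem _))
    set s := D.mu (g : 𝔾) j with hs'
    have hs0 : 0 ≤ s := D.mu_nonneg _ _
    set b := D.ea (D.mu (g : 𝔾) - Pi.single j s) with hb
    have hbZ : b ∈ Zc D C := ⟨_, ⟨fun i => update_nonneg j (D.mu_nonneg (g : 𝔾)) i, fun i => update_le j hC hg.1 i⟩, rfl⟩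
    have hx2 : D.ea (Pi.single j s) * (b * q) * (D.ea (Pi.single j s))⁻¹ ∈ C2 :=
      hcPm s hs0 _ (T.Pm.mul_mem (ea_PM D j _) hq) (Set.mul_mem_mul hbZ hqB)
    have e5 : (g : 𝔾) * k = (D.kL (g : 𝔾) * (D.ea (Pi.single j s) * (b * q) * (D.ea (Pi.single j s))⁻¹)) *
        (D.ea (Pi.single j s) * p * D.ea (D.mu (k : 𝔾))) * D.kR (k : 𝔾) := by
      have e6 : D.ea (D.mu (g : 𝔾)) = D.ea (Pi.single j s) * b := by rw [hb, ← D.ea_add, add_sub_cancel]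
      have e7 : (g : 𝔾) * k = D.kL (g : 𝔾) * D.ea (D.mu (g : 𝔾)) * (D.kR (g : 𝔾) * D.kL (k : 𝔾)) * D.ea (D.mu (k : 𝔾)) * D.kR (k : 𝔾) := by
        conv_lhs => rw [D.kak (g : 𝔾), D.kak (k : 𝔾)]
        group
      rw [e7, e4, e6]
      group
    have h5 : ∀ l, |D.tw l ((g : 𝔾) * k) - (D.tw l (g : 𝔾) + D.tw l (k : 𝔾))| ≤ RC + 4 * R := by
      intro l
      have h6 := D.tw_mul_le l (g : 𝔾) k
      have h7 := tw_type D j (C := C) hg.1 hC l
      rw [← hRC] at h7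
      have h8 : D.top l j * s + D.tw l (k : 𝔾) - 4 * R ≤ D.tw l ((g : 𝔾) * k) := by
        rw [e5]
        refine le_trans ?_ (tw_sandwich_low D l)
        have h9 := tw_low D l j hp (s := s) (c := D.mu (k : 𝔾))
        have h10 := D.tw_mul_le l (D.ea (Pi.single j s) * (b * q) * (D.ea (Pi.single j s))⁻¹)⁻¹ (D.kL (g : 𝔾))⁻¹
        rw [← _root_.mul_inv_rev] at h10
        have h11 : D.tw l (k : 𝔾) = ∑ m, D.top l m * D.mu (k : 𝔾) m := rfl
        linarith [(hRC2 _ hx2 l).2, (hRK _ (D.kL_mem (g : 𝔾)) l).2, (hRK _ (D.kR_mem (k : 𝔾)) l).2, (hRB1 p hpB l).2]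
      rw [abs_le]
      constructor <;> linarith
    have h6 : D.mu ((g : 𝔾) * k) i - D.mu (k : 𝔾) i = D.mu (g : 𝔾) i + ∑ l, D.C i l * (D.tw l ((g : 𝔾) * k) - (D.tw l (g : 𝔾) + D.tw l (k : 𝔾))) := by
      rw [D.mu_eq, D.mu_eq (k : 𝔾), D.mu_eq (g : 𝔾), ← Finset.sum_sub_distrib, ← Finset.sum_add_distrib]
      exact Finset.sum_congr rfl fun l _ => by ring
    rw [h6]
    refine (abs_add_le _ _).trans ?_
    have h7 : |D.mu (g : 𝔾) i| ≤ C := by
      rw [abs_of_nonneg (D.mu_nonneg _ _)]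
      exact hg.1 i hi
    have h8 : |∑ l, D.C i l * (D.tw l ((g : 𝔾) * k) - (D.tw l (g : 𝔾) + D.tw l (k : 𝔾)))| ≤ CC * (RC + 4 * R) := by
      refine (Finset.abs_sum_le_sum_abs _ _).trans ?_
      refine le_trans ?_ (mul_le_mul_of_nonneg_right (hCCi i) (by positivity))
      rw [Finset.sum_mul]
      refine Finset.sum_le_sum fun l _ => ?_
      rw [abs_mul]
      exact mul_le_mul_of_nonneg_left (h5 l) (abs_nonneg _)
    linarith

end Main

end Pool.Agent.Helper64.NIG
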