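import Mathlib

/-!
# Project FQ (MP_0f6f3f_an), layer NI: the geometry of the near isometry lemma, abstract form

`NGeo GG ι`: a topological group `GG` with a compact subgroup `K`, two opposite parabolic subgroups `P`, `Pm`, the one-parameter group `a` (contracting `P` by `a⁻¹ . a`, `Pm` by `a . a⁻¹`) and a
representation `ρ` by real matrices with a highest weight vector `o` of multiplicity one: `P` is the stabiliser of the line of `o`, `Pm` of the hyperplane opposite to it.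
-/

set_option autoImplicit false

open Filter Topology Matrix

namespace Pool.Agent.Helper64.NIG

variable {GG : Type} [Group GG] [TopologicalSpace GG] {ι : Type} [Fintype ι] [DecidableEq ι]

variable (GG ι) in
/-- The geometry of one node. -/
structure NGeo where
  /-- the maximal compact subgroup -/
  K : Subgroup GG
  /-- the parabolic subgroup -/
  P : Subgroup GG
  /-- the opposite parabolic subgroup -/
  Pm : Subgroup GG
  /-- the one-parameter group -/
  a : ℝ → GG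
  /-- the representation of the node -/
  ρ : GG →* Matrix ι ι ℝ
  /-- the highest weight vector -/
  o : ι
  /-- the weights of the one-parameter group -/
  w : ι → ℝ
  hK : IsCompact (K : Set GG)
  a_add : ∀ s t, a (s + t) = a s * a t
  a_P : ∀ s, a s ∈ P
  a_Pm : ∀ s, a s ∈ Pm
  cP : ∀ C : Set GG, IsCompact C → ∃ C' : Set GG, IsCompact C' ∧ ∀ s, 0 ≤ s → ∀ p ∈ P, p ∈ C → (a s)⁻¹ * p * a s ∈ C'
  cPm : ∀ C : Set GG, IsCompact C → ∃ C' : Set GG, IsCompact C' ∧ ∀ s, 0 ≤ s → ∀ p ∈ Pm, p ∈ C → a s * p * (a s)⁻¹ ∈ C'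
  clPm : IsClosed (Pm : Set GG)
  cont : Continuous ρ
  orth : ∀ k ∈ K, (ρ k)ᵀ * ρ k = 1
  diag : ∀ s, ρ (a s) = diagonal fun i => Real.exp (s * w i)
  top : ∀ i, i ≠ o → w i < w o
  stab : ∀ g, g ∈ P ↔ ∀ i, i ≠ o → ρ g i o = 0
  KP : ∀ g, ∃ k ∈ K, ∃ p ∈ P, g = k * p
  nbhd : {g | ∃ q ∈ Pm, ∃ p ∈ P, g = q * p} ∈ 𝓝 (1 : GG)
  dns : Dense {g | ρ g o o ≠ 0}

namespace NGeo

variable (D : NGeo GG ι)

theorem a_zero : D.a 0 = 1 := by
  have h := D.a_add 0 0
  rw [add_zero] at h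
  exact (left_eq_mul.1 h)

theorem a_neg (s : ℝ) : D.a (-s) = (D.a s)⁻¹ := by
  have h := D.a_add (-s) s
  rw [neg_add_cancel, D.a_zero] at h
  exact eq_inv_of_mul_eq_one_left h.symm

theorem a_sub (s t : ℝ) : D.a (s - t) = (D.a t)⁻¹ * D.a s := by
  rw [sub_eq_neg_add, D.a_add, D.a_neg]

theorem a_sub' (s t : ℝ) : D.a (s - t) = D.a s * (D.a t)⁻¹ := by
  rw [sub_eq_add_neg, D.a_add, D.a_neg]

/-- Elements with a decomposition `k₁ a_s b k₂`, `b ∈ Z` (bounded), right part `k₂ ∈ F`. -/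
structure W (Z F : Set GG) (g : GG) where
  /-- left part -/
  k1 : GG
  /-- right part -/
  k2 : GG
  /-- bounded part -/
  b : GG
  /-- large gap -/
  s : ℝ
  s0 : 0 ≤ s
  hk1 : k1 ∈ D.K
  hk2 : k2 ∈ D.K
  hF : k2 ∈ F
  hbZ : b ∈ Z
  hbm : b ∈ D.Pm
  comm : ∀ t, b * D.a t = D.a t * b
  eq : g = k1 * (D.a s * b) * k2

/-- Elements with a decomposition `l₁ d l₂`, `d` diagonal with gap at least `L`, left part `l₁ ∈ E`. -/
structure H (L : ℝ) (E : Set GG) (h : GG) where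
  /-- left part -/
  l1 : GG
  /-- right part -/
  l2 : GG
  /-- diagonal part -/
  d : GG
  /-- diagonal entries -/
  v : ι → ℝ
  hl1 : l1 ∈ D.K
  hl2 : l2 ∈ D.K
  hE : l1 ∈ E
  hd : D.ρ d = diagonal v
  v0 : 0 < v D.o
  gap : ∀ i, i ≠ D.o → |v i| ≤ Real.exp (-L) * v D.o
  eq : h = l1 * d * l2

end NGeo

end Pool.Agent.Helper64.NIG
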