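import Pool.Agent.Helper64.NIG.TG
import Pool.Agent.Helper84.GD.Basic

/-!
# Project FQ (MP_0f6f3f_an), layer NI: the geometry of group data

`tg D h1 h2 : TG 𝔾 ι` for group data `D : GD 𝔾 ι` (`Helper84/GD/Defs.lean`); `h1`: the weight `top_l - α_l` occurs, `h2`: the big cells are dense.
-/

set_option autoImplicit false

open Filter Topology Matrix

namespace Pool.Agent.Helper64.NIG

open Pool.Agent.Helper84.GDL

variable {𝔾 : Type} [Group 𝔾] [TopologicalSpace 𝔾] {ι : Type} [Fintype ι] [DecidableEq ι] (D : GD 𝔾 ι)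

/-- The exponent of `ea (single j t)`. -/
theorem ex_single (l j : ι) (i : Fin (D.d l + 1)) (t : ℝ) :
    ∑ m, (D.top l m - D.n l i m) * (Pi.single j t : ι → ℝ) m = (D.top l j - D.n l i j) * t := by
  rw [Finset.sum_eq_single j]
  · rw [Pi.single_eq_same]
  · intro m _ hm
    rw [Pi.single_eq_of_ne hm, mul_zero]
  · intro h
    exact absurd (Finset.mem_univ _) h

/-- Entries of a conjugate. -/
theorem conj_apply (l j : ι) (g : 𝔾) (s t : ℝ) (a b : Fin (D.d l + 1)) :
    D.rho l (D.ea (Pi.single j s) * g * D.ea (Pi.single j t)) a b =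
      Real.exp ((D.top l j - D.n l a j) * s + (D.top l j - D.n l b j) * t) * D.rho l g a b := by
  rw [map_mul, map_mul, D.rho_ea, D.rho_ea, mul_diagonal, diagonal_mul, ex_single, ex_single, Real.exp_add]
  ring

/-- The stabiliser of the base line. -/
def PP (j : ι) : Subgroup 𝔾 where
  carrier := {g | ∀ i, i ≠ 0 → D.rho j g i 0 = 0}
  one_mem' := fun i hi => by rw [map_one, one_apply_ne hi]
  mul_mem' := by
    intro g h hg hh i hi
    rw [map_mul, mul_apply, Finset.sum_eq_single 0]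
    · rw [hg i hi, zero_mul]
    · intro k _ hk
      rw [hh k hk, mul_zero]
    · intro h0
      exact absurd (Finset.mem_univ _) h0
  inv_mem' := by
    intro g hg i hi
    have h1 : ∀ a, D.rho j g⁻¹ a 0 * D.rho j g 0 0 = (1 : Matrix (Fin (D.d j + 1)) (Fin (D.d j + 1)) ℝ) a 0 := by
      intro a
      rw [← map_one (D.rho j), ← inv_mul_cancel g, map_mul, mul_apply, Finset.sum_eq_single 0]
      · intro k _ hk
        rw [hg k hk, mul_zero]
      · intro h0
        exact absurd (Finset.mem_univ _) h0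
    have h2 := h1 0
    rw [one_apply_eq] at h2
    have h3 := h1 i
    rw [one_apply_ne hi] at h3
    exact (mul_eq_zero.1 h3).resolve_right (right_ne_zero_of_mul (by rw [h2]; exact one_ne_zero))

/-- The stabiliser of the base hyperplane. -/
def PM (j : ι) : Subgroup 𝔾 where
  carrier := {g | ∀ i, i ≠ 0 → D.rho j g 0 i = 0}
  one_mem' := fun i hi => by rw [map_one, one_apply_ne hi.symm]
  mul_mem' := by
    intro g h hg hh i hi
    rw [map_mul, mul_apply, Finset.sum_eq_single 0]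
    · rw [hh i hi, mul_zero]
    · intro k _ hk
      rw [hg k hk, zero_mul]
    · intro h0
      exact absurd (Finset.mem_univ _) h0
  inv_mem' := by
    intro g hg i hi
    have h1 : ∀ a, D.rho j g 0 0 * D.rho j g⁻¹ 0 a = (1 : Matrix (Fin (D.d j + 1)) (Fin (D.d j + 1)) ℝ) 0 a := by
      intro a
      rw [← map_one (D.rho j), ← mul_inv_cancel g, map_mul, mul_apply, Finset.sum_eq_single 0]
      · intro k _ hk
        rw [hg k hk, zero_mul]
      · intro h0
        exact absurd (Finset.mem_univ _) h0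
    have h2 := h1 0
    rw [one_apply_eq] at h2
    have h3 := h1 i
    rw [one_apply_ne hi.symm] at h3
    exact (mul_eq_zero.1 h3).resolve_left (left_ne_zero_of_mul (by rw [h2]; exact one_ne_zero))

theorem mem_PP {j : ι} {g : 𝔾} : g ∈ PP D j ↔ ∀ i, i ≠ 0 → D.rho j g i 0 = 0 := Iff.rfl

theorem mem_PM {j : ι} {g : 𝔾} : g ∈ PM D j ↔ ∀ i, i ≠ 0 → D.rho j g 0 i = 0 := Iff.rfl

theorem isClosed_PM (j : ι) : IsClosed (PM D j : Set 𝔾) := by
  have h : (PM D j : Set 𝔾) = ⋂ i : {i : Fin (D.d j + 1) // i ≠ 0}, {g | D.rho j g 0 i = 0} := by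
    ext g
    simp only [SetLike.mem_coe, mem_PM, Set.mem_iInter, Set.mem_ofPred_eq, Subtype.forall]
  rw [h]
  exact isClosed_iInter fun i => isClosed_eq ((D.rho_cont j).matrix_elem _ _) continuous_const

theorem ea_PM (j : ι) (c : ι → ℝ) : D.ea c ∈ PM D j := by
  intro i hi
  rw [D.rho_ea, diagonal_apply_ne _ hi.symm]

/-- A bounded exponential: the factor is zero. -/
theorem eq_zero_of_tendsto {x y : ℝ} {n : ℕ} (hn : 1 ≤ n) (h : Tendsto (fun t : ℝ => Real.exp (n * t) * x) atTop (𝓝 y)) : x = 0 := by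
  have hn' : (0 : ℝ) < n := by exact_mod_cast hn
  have h1 : Tendsto (fun t : ℝ => Real.exp (-(n * t))) atTop (𝓝 0) :=
    Real.tendsto_exp_neg_atTop_nhds_zero.comp (tendsto_id.const_mul_atTop hn')
  have h2 := h1.mul h
  rw [zero_mul] at h2
  refine tendsto_nhds_unique ?_ h2
  refine Tendsto.congr (fun t => ?_) (tendsto_const_nhds (x := x))
  rw [← mul_assoc, ← Real.exp_add, neg_add_cancel, Real.exp_zero, one_mul]

theorem PM_of_contr {j : ι} {x : 𝔾} (h : Tendsto (fun t : ℝ => D.ea (Pi.single j t) * x * D.ea (Pi.single j (-t))) atTop (𝓝 1)) :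
    x ∈ PM D j := by
  intro i hi
  have h1 := (((D.rho_cont j).matrix_elem 0 i).tendsto 1).comp h
  refine eq_zero_of_tendsto (D.n_pos j i hi) (h1.congr fun t => ?_)
  change D.rho j (D.ea (Pi.single j t) * x * D.ea (Pi.single j (-t))) 0 i = _
  rw [conj_apply, D.n_zero]
  congr 2
  push_cast
  ring

theorem PP_of_contr {j : ι} {x : 𝔾} (h : Tendsto (fun t : ℝ => D.ea (Pi.single j (-t)) * x * D.ea (Pi.single j t)) atTop (𝓝 1)) :
    x ∈ PP D j := by
  intro i hi
  have h1 := (((D.rho_cont j).matrix_elem i 0).tendsto 1).comp h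
  refine eq_zero_of_tendsto (D.n_pos j i hi) (h1.congr fun t => ?_)
  change D.rho j (D.ea (Pi.single j (-t)) * x * D.ea (Pi.single j t)) i 0 = _
  rw [conj_apply, D.n_zero]
  congr 2
  push_cast
  ring

theorem PM_of_comm {j : ι} {x : 𝔾} (h : ∀ t : ℝ, x * D.ea (Pi.single j t) = D.ea (Pi.single j t) * x) : x ∈ PM D j := by
  intro i hi
  have h1 : D.ea (Pi.single j 1) * x * D.ea (Pi.single j (-1)) = x := by
    rw [← h, mul_assoc, ← D.ea_add, ← Pi.single_add, add_neg_cancel, Pi.single_zero, D.ea_zero, mul_one]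
  have h2 := conj_apply D j j x 1 (-1) 0 i
  rw [h1, D.n_zero] at h2
  have h3 : Real.exp ((D.top j j - ((0 : ℕ) : ℝ)) * 1 + (D.top j j - D.n j i j) * -1) ≠ 1 := by
    intro h4
    have h5 := Real.exp_eq_one_iff _ |>.1 h4
    have h6 : (1 : ℝ) ≤ D.n j i j := by exact_mod_cast D.n_pos j i hi
    push_cast at h5
    linarith
  by_contra h7
  exact h3 (mul_right_cancel₀ h7 (by rw [one_mul]; exact h2.symm))

/-- The target group. -/
noncomputable def tg [IsTopologicalGroup 𝔾] [LocallyCompactSpace 𝔾] (h1 : ∀ l, ∃ i, ∀ j, D.n l i j = if j = l then 1 else 0)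
    (h2 : ∀ j, Dense {g | D.rho j g 0 0 ≠ 0}) : TG 𝔾 ι where
  K := D.K
  P := PP D
  Pm := PM D
  n := fun l => D.d l + 1
  r := D.rho
  o := fun _ => 0
  e := D.ea
  W := fun l i m => D.top l m - D.n l i m
  co := D.C
  hK := D.cpt
  clPm := isClosed_PM D
  cont := D.rho_cont
  orth := D.orth
  e_cont := D.ea_cont
  e_add := D.ea_add
  diag := D.rho_ea
  W_le := fun l i m => by
    rw [D.n_zero, Nat.cast_zero]
    have : (0 : ℝ) ≤ D.n l i m := Nat.cast_nonneg _
    linarith
  W_lt := fun l i hi => by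
    rw [D.n_zero, Nat.cast_zero]
    have : (1 : ℝ) ≤ D.n l i l := by exact_mod_cast D.n_pos l i hi
    linarith
  W_eq := fun l => by
    obtain ⟨i, hi⟩ := h1 l
    refine ⟨i, fun m => ?_⟩
    rw [D.n_zero, hi]
    split_ifs <;> simp
  inv := fun l μ => by
    rw [← D.C_top μ l]
    refine Finset.sum_congr rfl fun m _ => ?_
    congr 1
    exact Finset.sum_congr rfl fun q _ => by rw [D.n_zero, Nat.cast_zero, sub_zero]
  kak := fun g => ⟨D.kL g, D.kL_mem g, D.kR g, D.kR_mem g, D.mu g, D.mu_nonneg g, D.kak g⟩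
  stab := fun j g => Iff.rfl
  e_Pm := ea_PM D
  cP := fun j C hC => by
    obtain ⟨C', hC', h⟩ := D.par j C hC
    refine ⟨C', hC', fun s hs p hp hpC => ?_⟩
    have h3 := h p hpC hp s hs
    rwa [Pi.single_neg, D.ea_neg] at h3
  cPm := fun j C hC => by
    obtain ⟨C', hC', h⟩ := D.par' j C hC
    refine ⟨C', hC', fun s hs p hp hpC => ?_⟩
    have h3 := h p hpC hp s hs
    rwa [Pi.single_neg, D.ea_neg] at h3
  nbhd := fun j => by
    obtain ⟨V, hV, hV'⟩ := exists_compact_mem_nhds (1 : 𝔾)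
    obtain ⟨B, -, hB⟩ := D.cell j (1 / 2) (by norm_num) V hV
    have hc : ∀ᶠ g in 𝓝 (1 : 𝔾), 1 / 2 ≤ |D.rho j g 0 0| := by
      have h3 : Tendsto (fun g : 𝔾 => |D.rho j g 0 0|) (𝓝 1) (𝓝 |D.rho j 1 0 0|) := (((D.rho_cont j).matrix_elem 0 0).abs).tendsto 1
      rw [map_one, one_apply_eq, abs_one] at h3
      exact (h3.eventually (lt_mem_nhds (show (1 / 2 : ℝ) < 1 by norm_num))).mono fun _ h => le_of_lt h
    filter_upwards [hV', hc] with g hg1 hg2
    obtain ⟨x, _, l, _, y, _, rfl, hx, hl, hy⟩ := hB g hg1 hg2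
    exact ⟨x * l, (PM D j).mul_mem (PM_of_contr D hx) (PM_of_comm D hl), y, PP_of_contr D hy, rfl⟩
  dns := h2

end Pool.Agent.Helper64.NIG
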