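import Pool.Agent.Helper64.NIG.Top

/-!
# Project FQ (MP_0f6f3f_an), layer NI: the structure lemma

`near`: the image `h m` of a generic point is near the left part of `h`. `structure_lemma`: if `g, g t` are in `W` (bounded part in a compact set) and `h, t h` are in `H L` (`L ≥ L₀`), right parts of the first and left
parts of the second uniformly opposite, then `t` or `t⁻¹` is of the form `x a_r y`, `r ≥ 0`, with `x`, `y` bounded, and there is no cancellation in the products `g'' t`, `t h''` (resp. with `t⁻¹`).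
-/

set_option autoImplicit false

open Filter Topology Matrix

namespace Pool.Agent.Helper64.NIG

namespace NGeo

variable {GG : Type} [Group GG] [TopologicalSpace GG] {ι : Type} [Fintype ι] [DecidableEq ι] (D : NGeo GG ι)

theorem sum_split (f : ι → ℝ) : ∑ i, f i = f D.o + ∑ i ∈ Finset.univ.erase D.o, f i :=
  (Finset.add_sum_erase _ _ (Finset.mem_univ _)).symm

theorem near {δ δ' ε L : ℝ} (hδ' : 0 < δ') (hε : Real.exp (-L) / δ' ≤ ε) (hε1 : Fintype.card ι * ε ≤ 1 / 2) {E : Set GG} {h : GG}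
    (X : D.H L E h) {m : GG} (hm : m ∈ D.K) (hX : δ' ≤ |D.ρ (X.l2 * m) D.o D.o|) {z p : GG} (hz : z ∈ D.K) (hp : p ∈ D.P)
    (hzp : h * m = z * p) {κ : GG} (hκ : κ ∈ D.K) (hopp : δ ≤ |D.ρ (κ * X.l1) D.o D.o|) :
    δ / 2 - Fintype.card ι * ε ≤ |D.ρ (κ * z) D.o D.o| := by
  have hcard : (1 : ℝ) ≤ Fintype.card ι := by
    have : 0 < Fintype.card ι := Fintype.card_pos_iff.2 ⟨D.o⟩
    exact_mod_cast this
  have hε0 : 0 ≤ ε := le_trans (div_nonneg (Real.exp_pos _).le hδ'.le) hε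
  have hlz : X.l1⁻¹ * z ∈ D.K := D.K.mul_mem (D.K.inv_mem X.hl1) hz
  have hlm : X.l2 * m ∈ D.K := D.K.mul_mem X.hl2 hm
  have e0 : X.l1⁻¹ * z = X.d * (X.l2 * m) * p⁻¹ := by
    have hh := X.eq
    have : z = X.l1 * X.d * X.l2 * m * p⁻¹ := by rw [← hh, hzp]; group
    rw [this]
    group
  have hu : ∀ i, D.ρ (X.l1⁻¹ * z) i D.o = X.v i * D.ρ (X.l2 * m) i D.o * D.ρ p⁻¹ D.o D.o := by
    intro i
    rw [e0, D.mul_P _ (D.P.inv_mem hp), map_mul, X.hd, diagonal_mul]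
  set χ := |D.ρ p⁻¹ D.o D.o| with hχ
  have h1 : X.v D.o * χ ≤ 1 / δ' := by
    rw [le_div_iff₀ hδ']
    have h2 := D.ent _ hlz D.o D.o
    rw [hu, abs_mul, abs_mul, abs_of_pos X.v0] at h2
    calc X.v D.o * χ * δ' ≤ X.v D.o * χ * |D.ρ (X.l2 * m) D.o D.o| :=
          mul_le_mul_of_nonneg_left hX (mul_nonneg X.v0.le (abs_nonneg _))
      _ = X.v D.o * |D.ρ (X.l2 * m) D.o D.o| * |D.ρ p⁻¹ D.o D.o| := by rw [hχ]; ring
      _ ≤ 1 := h2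
  have hui : ∀ i, i ≠ D.o → |D.ρ (X.l1⁻¹ * z) i D.o| ≤ ε := by
    intro i hi
    rw [hu, abs_mul, abs_mul]
    calc |X.v i| * |D.ρ (X.l2 * m) i D.o| * |D.ρ p⁻¹ D.o D.o|
        ≤ (Real.exp (-L) * X.v D.o) * 1 * χ :=
          mul_le_mul_of_nonneg_right (mul_le_mul (X.gap i hi) (D.ent _ hlm _ _) (abs_nonneg _)
            (mul_nonneg (Real.exp_pos _).le X.v0.le)) (abs_nonneg _)
      _ = Real.exp (-L) * (X.v D.o * χ) := by ring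
      _ ≤ Real.exp (-L) * (1 / δ') := mul_le_mul_of_nonneg_left h1 (Real.exp_pos _).le
      _ = Real.exp (-L) / δ' := by ring
      _ ≤ ε := hε
  have huo : 1 / 2 ≤ |D.ρ (X.l1⁻¹ * z) D.o D.o| := by
    have h2 := D.col _ hlz D.o
    rw [D.sum_split] at h2
    have h3 : ∑ i ∈ Finset.univ.erase D.o, D.ρ (X.l1⁻¹ * z) i D.o ^ 2 ≤ Fintype.card ι * ε ^ 2 := by
      have h4 : ∀ i ∈ Finset.univ.erase D.o, D.ρ (X.l1⁻¹ * z) i D.o ^ 2 ≤ ε ^ 2 := fun i hi => by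
        rw [← sq_abs]
        exact pow_le_pow_left₀ (abs_nonneg _) (hui i (Finset.ne_of_mem_erase hi)) 2
      refine (Finset.sum_le_card_nsmul _ _ _ h4).trans ?_
      rw [nsmul_eq_mul]
      refine mul_le_mul_of_nonneg_right ?_ (sq_nonneg _)
      have : (Finset.univ.erase D.o).card ≤ Fintype.card ι := Finset.card_le_univ _
      exact_mod_cast this
    have h5 : (Fintype.card ι : ℝ) * ε ^ 2 ≤ 1 / 4 := by
      have h6 : (Fintype.card ι : ℝ) * ε ^ 2 ≤ (Fintype.card ι * ε) * (Fintype.card ι * ε) := by nlinarith [sq_nonneg ε]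
      have h7 : (Fintype.card ι * ε) * (Fintype.card ι * ε) ≤ (1 / 2) * (1 / 2) :=
        mul_le_mul hε1 hε1 (by positivity) (by norm_num)
      linarith
    have h8 : (1 / 2 : ℝ) ^ 2 ≤ |D.ρ (X.l1⁻¹ * z) D.o D.o| ^ 2 := by
      rw [sq_abs]
      nlinarith
    by_contra hc
    push Not at hc
    nlinarith [abs_nonneg (D.ρ (X.l1⁻¹ * z) D.o D.o)]
  have e1 : κ * z = (κ * X.l1) * (X.l1⁻¹ * z) := by group
  have hκl : κ * X.l1 ∈ D.K := D.K.mul_mem hκ X.hl1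
  have e2 : D.ρ (κ * z) D.o D.o = D.ρ (κ * X.l1) D.o D.o * D.ρ (X.l1⁻¹ * z) D.o D.o +
      ∑ i ∈ Finset.univ.erase D.o, D.ρ (κ * X.l1) D.o i * D.ρ (X.l1⁻¹ * z) i D.o := by
    rw [e1, map_mul D.ρ (κ * X.l1), mul_apply]
    exact D.sum_split fun i => D.ρ (κ * X.l1) D.o i * D.ρ (X.l1⁻¹ * z) i D.o
  have h9 : |∑ i ∈ Finset.univ.erase D.o, D.ρ (κ * X.l1) D.o i * D.ρ (X.l1⁻¹ * z) i D.o| ≤ Fintype.card ι * ε := by
    refine (Finset.abs_sum_le_sum_abs _ _).trans ?_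
    have h4 : ∀ i ∈ Finset.univ.erase D.o, |D.ρ (κ * X.l1) D.o i * D.ρ (X.l1⁻¹ * z) i D.o| ≤ ε := fun i hi => by
      rw [abs_mul]
      calc _ ≤ 1 * ε := mul_le_mul (D.ent _ hκl _ _) (hui i (Finset.ne_of_mem_erase hi)) (abs_nonneg _) zero_le_one
        _ = ε := one_mul _
    refine (Finset.sum_le_card_nsmul _ _ _ h4).trans ?_
    rw [nsmul_eq_mul]
    refine mul_le_mul_of_nonneg_right ?_ hε0
    have : (Finset.univ.erase D.o).card ≤ Fintype.card ι := Finset.card_le_univ _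
    exact_mod_cast this
  have h10 : δ / 2 ≤ |D.ρ (κ * X.l1) D.o D.o * D.ρ (X.l1⁻¹ * z) D.o D.o| := by
    rw [abs_mul]
    by_cases hδ : 0 ≤ δ
    · calc δ / 2 = δ * (1 / 2) := by ring
        _ ≤ _ := mul_le_mul hopp huo (by norm_num) (abs_nonneg _)
    · push Not at hδ
      exact (by linarith : δ / 2 ≤ 0).trans (by positivity)
  rw [e2]
  have h11 := abs_sub_abs_le_abs_add (D.ρ (κ * X.l1) D.o D.o * D.ρ (X.l1⁻¹ * z) D.o D.o)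
    (∑ i ∈ Finset.univ.erase D.o, D.ρ (κ * X.l1) D.o i * D.ρ (X.l1⁻¹ * z) i D.o)
  linarith


/-- No cancellation in the products with `t`. -/
def Good (Z F E B : Set GG) (L : ℝ) (t : GG) : Prop :=
  ∃ r : ℝ, 0 ≤ r ∧ (∃ x ∈ B, ∃ y ∈ B, t = x * D.a r * y) ∧
    (∀ g (X : D.W Z F g), ∃ x ∈ B, ∃ y ∈ B, g * t = x * D.a (X.s + r) * y) ∧
    ∀ h (Y : D.H L E h), ∃ x ∈ B, ∃ p ∈ D.P, p ∈ B ∧ t * h = x * D.a r * p * Y.d * Y.l2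

/-- The constants of the structure lemma. -/
structure Cst (Z : Set GG) (δ : ℝ) where
  /-- the factors of the big cell -/
  B1 : Set GG
  /-- conjugates -/
  C2 : Set GG
  /-- conjugates -/
  C4 : Set GG
  /-- conjugates -/
  C6 : Set GG
  /-- conjugates -/
  C7 : Set GG
  cZ : IsCompact Z
  cB1 : IsCompact B1
  cC2 : IsCompact C2
  cC4 : IsCompact C4
  cC6 : IsCompact C6
  cC7 : IsCompact C7
  cell : ∀ κ ∈ D.K, δ ≤ |D.ρ κ D.o D.o| → ∃ q ∈ D.Pm, q ∈ B1 ∧ ∃ p ∈ D.P, p ∈ B1 ∧ κ = q * p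
  h2 : ∀ s, 0 ≤ s → ∀ b ∈ Z, b ∈ D.Pm → ∀ p ∈ D.Pm, p ∈ B1 → D.a s * (b * p) * (D.a s)⁻¹ ∈ C2
  h4 : ∀ s, 0 ≤ s → ∀ x ∈ C2, ∀ k ∈ D.K, ∀ y ∈ C2, x⁻¹ * k * y ∈ D.P → (D.a s)⁻¹ * (x⁻¹ * k * y) * D.a s ∈ C4
  h4' : ∀ x ∈ C4, x⁻¹ ∈ C4
  h6 : ∀ s, 0 ≤ s → ∀ p ∈ D.P, p ∈ B1 → ∀ p' ∈ D.P, p' ∈ B1 → ∀ q ∈ D.P, q ∈ C4 → (D.a s)⁻¹ * (p * p'⁻¹ * q) * D.a s ∈ C6
  h7 : ∀ s, 0 ≤ s → ∀ p ∈ D.Pm, p ∈ B1 → ∀ q ∈ D.Pm, q ∈ B1 → D.a s * (p⁻¹ * q) * (D.a s)⁻¹ ∈ C7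

open scoped Pointwise in
theorem exists_cst [IsTopologicalGroup GG] [T2Space GG] [LocallyCompactSpace GG] [SigmaCompactSpace GG] {Z : Set GG}
    (hZ : IsCompact Z) {δ : ℝ} (hδ : 0 < δ) : Nonempty (D.Cst Z δ) := by
  obtain ⟨B1, hB1, hcell⟩ := D.cell_compact D.hK hδ
  obtain ⟨C2, hC2, h2⟩ := D.cPm (Z * B1) (hZ.mul hB1)
  obtain ⟨C4, hC4, h4⟩ := D.cP (C2⁻¹ * (D.K : Set GG) * C2) ((hC2.inv.mul D.hK).mul hC2)
  have hC4' : IsCompact (C4 ∪ C4⁻¹) := hC4.union hC4.inv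
  obtain ⟨C6, hC6, h6⟩ := D.cP (B1 * B1⁻¹ * (C4 ∪ C4⁻¹)) ((hB1.mul hB1.inv).mul hC4')
  obtain ⟨C7, hC7, h7⟩ := D.cPm (B1⁻¹ * B1) (hB1.inv.mul hB1)
  exact ⟨{
    B1 := B1
    C2 := C2
    C4 := C4 ∪ C4⁻¹
    C6 := C6
    C7 := C7
    cZ := hZ
    cB1 := hB1
    cC2 := hC2
    cC4 := hC4'
    cC6 := hC6
    cC7 := hC7
    cell := hcell
    h2 := fun s hs b hb hbm p hp hpB => h2 s hs _ (D.Pm.mul_mem hbm hp) (Set.mul_mem_mul hb hpB)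
    h4 := fun s hs x hx k hk y hy hP => Or.inl (h4 s hs _ hP
      (Set.mul_mem_mul (Set.mul_mem_mul (Set.inv_mem_inv.2 hx) hk) hy))
    h4' := fun x hx => by
      rcases hx with hx | hx
      · exact Or.inr (Set.inv_mem_inv.2 hx)
      · exact Or.inl hx
    h6 := fun s hs p hp hpB p' hp' hpB' q hq hqC => h6 s hs _ (D.P.mul_mem (D.P.mul_mem hp (D.P.inv_mem hp')) hq)
      (Set.mul_mem_mul (Set.mul_mem_mul hpB (Set.inv_mem_inv.2 hpB')) hqC)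
    h7 := fun s hs p hp hpB q hq hqB => h7 s hs _ (D.Pm.mul_mem (D.Pm.inv_mem hp) hq)
      (Set.mul_mem_mul (Set.inv_mem_inv.2 hpB) hqB) }⟩

open scoped Pointwise in
/-- The compact set of the structure lemma. -/
def Cst.B {Z : Set GG} {δ : ℝ} (c : D.Cst Z δ) : Set GG :=
  (D.K : Set GG) * c.B1⁻¹ * c.C4 ∪ c.B1 * (D.K : Set GG) ∪ (D.K : Set GG) * c.C2 ∪ c.C6 * (c.B1 * (D.K : Set GG)) ∪
    (D.K : Set GG) * c.B1⁻¹ * c.C4 * c.C7 ∪ c.B1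

open scoped Pointwise in
theorem Cst.compact [IsTopologicalGroup GG] {Z : Set GG} {δ : ℝ} (c : D.Cst Z δ) : IsCompact (c.B D) :=
  (((((((D.hK.mul c.cB1.inv).mul c.cC4).union (c.cB1.mul D.hK)).union (D.hK.mul c.cC2)).union
    (c.cC6.mul (c.cB1.mul D.hK))).union (((D.hK.mul c.cB1.inv).mul c.cC4).mul c.cC7)).union c.cB1)

open scoped Pointwise in
theorem good_of {Z F E : Set GG} {L δ : ℝ} (c : D.Cst Z δ) (hFE : ∀ κ ∈ F, κ ∈ D.K → ∀ l ∈ E, l ∈ D.K → δ ≤ |D.ρ (κ * l) D.o D.o|)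
    {z z' κ p q p' x t : GG} {r : ℝ} (hr : 0 ≤ r) (hz : z ∈ D.K) (hz' : z' ∈ D.K) (hκ : κ ∈ D.K) (hκF : κ ∈ F)
    (hn : ∀ κ ∈ F, κ ∈ D.K → δ ≤ |D.ρ (κ * z') D.o D.o|)
    (hpB : p ∈ c.B1) (hq : q ∈ D.Pm) (hqB : q ∈ c.B1) (hp' : p' ∈ D.P) (hpB' : p' ∈ c.B1)
    (e1 : κ * z = q * p) (hx : x ∈ D.P) (hxC : x ∈ c.C4)
    (et : t = z' * p'⁻¹ * x * D.a r * (z * p⁻¹)⁻¹) : D.Good Z F E (c.B D) L t := by
  have eh1 : z * p⁻¹ = κ⁻¹ * q := by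
    have : z = κ⁻¹ * (q * p) := by rw [← e1]; group
    rw [this]
    group
  refine ⟨r, hr, ⟨z' * p'⁻¹ * x, ?_, p * z⁻¹, ?_, ?_⟩, ?_, ?_⟩
  · exact Or.inl (Or.inl (Or.inl (Or.inl (Or.inl (Set.mul_mem_mul (Set.mul_mem_mul hz' (Set.inv_mem_inv.2 hpB')) hxC)))))
  · exact Or.inl (Or.inl (Or.inl (Or.inl (Or.inr (Set.mul_mem_mul hpB (D.K.inv_mem hz))))))
  · rw [et]
    group
  · intro g X
    obtain ⟨q3, hq3, hq3B, p3, hp3, hp3B, e3⟩ := c.cell _ (D.K.mul_mem X.hk2 hz') (hn _ X.hF X.hk2)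
    refine ⟨X.k1 * (D.a X.s * (X.b * q3) * (D.a X.s)⁻¹), ?_, (D.a r)⁻¹ * (p3 * p'⁻¹ * x) * D.a r * (p * z⁻¹), ?_, ?_⟩
    · exact Or.inl (Or.inl (Or.inl (Or.inr (Set.mul_mem_mul X.hk1 (c.h2 _ X.s0 _ X.hbZ X.hbm _ hq3 hq3B)))))
    · exact Or.inl (Or.inl (Or.inr (Set.mul_mem_mul (c.h6 _ hr _ hp3 hp3B _ hp' hpB' _ hx hxC)
        (Set.mul_mem_mul hpB (D.K.inv_mem hz)))))
    · have hg := X.eq
      have e4 : g * t = X.k1 * (D.a X.s * X.b) * (X.k2 * z') * p'⁻¹ * x * D.a r * (z * p⁻¹)⁻¹ := by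
        rw [et]
        conv_lhs => rw [hg]
        group
      rw [e4, e3, D.a_add]
      group
  · intro h Y
    obtain ⟨q4, hq4, hq4B, p4, hp4, hp4B, e4⟩ := c.cell _ (D.K.mul_mem hκ Y.hl1) (hFE _ hκF hκ _ Y.hE Y.hl1)
    refine ⟨z' * p'⁻¹ * x * (D.a r * (q⁻¹ * q4) * (D.a r)⁻¹), ?_, p4, hp4, Or.inr hp4B, ?_⟩
    · exact Or.inl (Or.inr (Set.mul_mem_mul (Set.mul_mem_mul (Set.mul_mem_mul hz' (Set.inv_mem_inv.2 hpB')) hxC)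
        (c.h7 _ hr _ hq hqB _ hq4 hq4B)))
    · have hh := Y.eq
      have e5 : t * h = z' * p'⁻¹ * x * D.a r * (z * p⁻¹)⁻¹ * (Y.l1 * Y.d * Y.l2) := by
        rw [et]
        conv_lhs => rw [hh]
      have e6 : Y.l1 = κ⁻¹ * (q4 * p4) := by rw [← e4]; group
      have e7 : (z * p⁻¹)⁻¹ * (Y.l1 * Y.d * Y.l2) = q⁻¹ * q4 * p4 * Y.d * Y.l2 := by
        rw [eh1, e6]
        group
      rw [e5, mul_assoc (z' * p'⁻¹ * x * D.a r), e7]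
      group

theorem exists_L {ι : Type} [Fintype ι] {δ : ℝ} (hδ : 0 < δ) (δ' : ℝ) : ∃ L0 : ℝ, 0 ≤ L0 ∧ ∀ L, L0 ≤ L →
    Fintype.card ι * (Real.exp (-L) / δ') ≤ 1 / 2 ∧ δ / 4 ≤ δ / 2 - Fintype.card ι * (Real.exp (-L) / δ') := by
  have h1 : Tendsto (fun L : ℝ => Fintype.card ι * (Real.exp (-L) / δ')) atTop (𝓝 (Fintype.card ι * (0 / δ'))) :=
    ((Real.tendsto_exp_neg_atTop_nhds_zero).div_const δ').const_mul _
  rw [zero_div, mul_zero] at h1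
  have h2 := (h1.eventually (gt_mem_nhds (show (0 : ℝ) < min (1 / 2) (δ / 4) by positivity))).and (eventually_ge_atTop 0)
  obtain ⟨L0, hL0⟩ := eventually_atTop.1 h2
  refine ⟨max L0 0, le_max_right _ _, fun L hL => ?_⟩
  have h3 := (hL0 L (le_trans (le_max_left _ _) hL)).1
  have h4 := h3.trans_le (min_le_left _ _)
  have h5 := h3.trans_le (min_le_right _ _)
  exact ⟨h4.le, by linarith⟩

/-- **The structure lemma.** -/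
theorem structure_lemma [IsTopologicalGroup GG] [T2Space GG] [LocallyCompactSpace GG] [SigmaCompactSpace GG] {Z : Set GG}
    (hZ : IsCompact Z) {δ : ℝ} (hδ : 0 < δ) : ∃ L0 : ℝ, ∃ B : Set GG, IsCompact B ∧ ∀ L, L0 ≤ L → ∀ F E : Set GG,
      (∀ κ ∈ F, κ ∈ D.K → ∀ l ∈ E, l ∈ D.K → δ ≤ |D.ρ (κ * l) D.o D.o|) → ∀ t g h, D.W Z F g → D.W Z F (g * t) →
      D.H L E h → D.H L E (t * h) → D.Good Z F E B L t ∨ D.Good Z F E B L t⁻¹ := by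
  obtain ⟨δ', hδ', hgen⟩ := D.exists_gen
  obtain ⟨c⟩ := D.exists_cst hZ (show 0 < δ / 4 by positivity)
  obtain ⟨L0, -, hL0⟩ := exists_L (ι := ι) hδ δ'
  refine ⟨L0, c.B D, c.compact D, fun L hL F E hFE t g h X X' Y Y' => ?_⟩
  obtain ⟨hε1, hε2⟩ := hL0 L hL
  obtain ⟨m, hm, hm1, hm2⟩ := hgen _ Y.hl2 _ Y'.hl2
  obtain ⟨z, hz, p, hp, ezp⟩ := D.KP (h * m)
  obtain ⟨z', hz', p', hp', ezp'⟩ := D.KP (t * h * m)
  have hn : ∀ κ ∈ F, κ ∈ D.K → δ / 4 ≤ |D.ρ (κ * z) D.o D.o| := fun κ hκF hκ =>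
    hε2.trans (D.near hδ' le_rfl hε1 Y hm hm1 hz hp ezp hκ (hFE κ hκF hκ _ Y.hE Y.hl1))
  have hn' : ∀ κ ∈ F, κ ∈ D.K → δ / 4 ≤ |D.ρ (κ * z') D.o D.o| := fun κ hκF hκ =>
    hε2.trans (D.near hδ' le_rfl hε1 Y' hm hm2 hz' hp' ezp' hκ (hFE κ hκF hκ _ Y'.hE Y'.hl1))
  have hFE' : ∀ κ ∈ F, κ ∈ D.K → ∀ l ∈ E, l ∈ D.K → δ / 4 ≤ |D.ρ (κ * l) D.o D.o| := fun κ h1 h2 l h3 h4 =>
    le_trans (by linarith) (hFE κ h1 h2 l h3 h4)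
  obtain ⟨q1, hq1, hq1B, p1, hp1, hp1B, e1⟩ := c.cell _ (D.K.mul_mem X'.hk2 hz) (hn _ X'.hF X'.hk2)
  obtain ⟨q2, hq2, hq2B, p2, hp2, hp2B, e2⟩ := c.cell _ (D.K.mul_mem X.hk2 hz') (hn' _ X.hF X.hk2)
  -- the relation
  have et : t * z = z' * p' * p⁻¹ := by
    have h1 : z = h * m * p⁻¹ := by rw [ezp]; group
    rw [h1, ← ezp']
    group
  have etP : p2 * z'⁻¹ * t * (z * p1⁻¹) ∈ D.P := by
    have h1 : p2 * z'⁻¹ * t * (z * p1⁻¹) = p2 * p' * p⁻¹ * p1⁻¹ := by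
      have : p2 * z'⁻¹ * t * (z * p1⁻¹) = p2 * z'⁻¹ * (t * z) * p1⁻¹ := by group
      rw [this, et]
      group
    rw [h1]
    exact D.P.mul_mem (D.P.mul_mem (D.P.mul_mem hp2 hp') (D.P.inv_mem hp)) (D.P.inv_mem hp1)
  set t' := p2 * z'⁻¹ * t * (z * p1⁻¹) with ht'
  have hg := X.eq
  have hg' := X'.eq
  have key : D.a X.s * t' * (D.a X'.s)⁻¹ = (D.a X.s * (X.b * q2) * (D.a X.s)⁻¹)⁻¹ * (X.k1⁻¹ * X'.k1) *
      (D.a X'.s * (X'.b * q1) * (D.a X'.s)⁻¹) := by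
    have e3 : X.k1 * (D.a X.s * X.b) * X.k2 * t = X'.k1 * (D.a X'.s * X'.b) * X'.k2 := by rw [← hg, ← hg']
    have e4 : X.k2 = q2 * p2 * z'⁻¹ := by rw [← e2]; group
    have e5 : X'.k2 = q1 * p1 * z⁻¹ := by rw [← e1]; group
    rw [e4, e5] at e3
    have e6 : t' = q2⁻¹ * X.b⁻¹ * (D.a X.s)⁻¹ * X.k1⁻¹ * (X.k1 * (D.a X.s * X.b) * (q2 * p2 * z'⁻¹) * t) * (z * p1⁻¹) := by
      rw [ht']
      group
    rw [e6, e3]
    group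
  set u := D.a X.s * t' * (D.a X'.s)⁻¹ with hu
  have hC2 : D.a X.s * (X.b * q2) * (D.a X.s)⁻¹ ∈ c.C2 := c.h2 _ X.s0 _ X.hbZ X.hbm _ hq2 hq2B
  have hC2' : D.a X'.s * (X'.b * q1) * (D.a X'.s)⁻¹ ∈ c.C2 := c.h2 _ X'.s0 _ X'.hbZ X'.hbm _ hq1 hq1B
  have huP : u ∈ D.P := D.P.mul_mem (D.P.mul_mem (D.a_P _) etP) (D.P.inv_mem (D.a_P _))
  have huC : ∀ s, 0 ≤ s → (D.a s)⁻¹ * u * D.a s ∈ c.C4 := fun s hs => by
    have h1 := c.h4 s hs _ hC2 _ (D.K.mul_mem (D.K.inv_mem X.hk1) X'.hk1) _ hC2'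
    rw [← key] at h1
    exact h1 huP
  rcases le_total X.s X'.s with hs | hs
  · left
    refine D.good_of c hFE' (sub_nonneg.2 hs) hz hz' X'.hk2 X'.hF hn' hp1B hq1 hq1B hp2 hp2B e1
      (x := (D.a X.s)⁻¹ * u * D.a X.s) (D.P.mul_mem (D.P.mul_mem (D.P.inv_mem (D.a_P _)) huP) (D.a_P _)) (huC _ X.s0) ?_
    have h1 : (D.a X.s)⁻¹ * u * D.a X.s * D.a (X'.s - X.s) = t' := by
      rw [D.a_sub, hu]
      group
    have h2 : t = z' * p2⁻¹ * t' * (z * p1⁻¹)⁻¹ := by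
      rw [ht']
      group
    refine h2.trans ?_
    rw [← h1]
    group
  · right
    refine D.good_of c hFE' (sub_nonneg.2 hs) hz' hz X.hk2 X.hF hn hp2B hq2 hq2B hp1 hp1B e2
      (x := ((D.a X'.s)⁻¹ * u * D.a X'.s)⁻¹) (D.P.inv_mem (D.P.mul_mem (D.P.mul_mem (D.P.inv_mem (D.a_P _)) huP) (D.a_P _)))
      (c.h4' _ (huC _ X'.s0)) ?_
    have h1 : ((D.a X'.s)⁻¹ * u * D.a X'.s)⁻¹ * D.a (X.s - X'.s) = t'⁻¹ := by
      rw [D.a_sub, hu]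
      group
    have h2 : t⁻¹ = z * p1⁻¹ * t'⁻¹ * (z' * p2⁻¹)⁻¹ := by
      rw [ht']
      group
    refine h2.trans ?_
    rw [← h1]
    group

end NGeo

end Pool.Agent.Helper64.NIG
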