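import Pool.Agent.Helper64.NIG.Str

/-!
# Project FQ (MP_0f6f3f_an), layer NI: the abstract target group

`TG GG I`: the data of the target group `GG` with nodes `I` (see the fields). `toN j`: the geometry of the node `j` (`NGeo`); `G = K P_j` is derived from the Cartan decomposition.
-/

set_option autoImplicit false

open Filter Topology Matrix

namespace Pool.Agent.Helper64.NIG

/-- The abstract target group. -/
structure TG (GG : Type) [Group GG] [TopologicalSpace GG] (I : Type) [Fintype I] [DecidableEq I] where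
  /-- the maximal compact subgroup -/
  K : Subgroup GG
  /-- the maximal parabolic subgroups -/
  P : I → Subgroup GG
  /-- the opposite parabolic subgroups -/
  Pm : I → Subgroup GG
  /-- dimensions -/
  n : I → ℕ
  /-- representations -/
  r : ∀ i, GG →* Matrix (Fin (n i)) (Fin (n i)) ℝ
  /-- highest weight vectors -/
  o : ∀ i, Fin (n i)
  /-- `exp (∑ μ_i H_i)`, `H_i` the dual basis of the simple roots -/
  e : (I → ℝ) → GG
  /-- weights -/
  W : ∀ i, Fin (n i) → I → ℝ
  /-- gaps in terms of the highest weights -/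
  co : I → I → ℝ
  hK : IsCompact (K : Set GG)
  clPm : ∀ j, IsClosed (Pm j : Set GG)
  cont : ∀ i, Continuous (r i)
  orth : ∀ i, ∀ k ∈ K, (r i k)ᵀ * r i k = 1
  e_cont : Continuous e
  e_add : ∀ μ ν, e (μ + ν) = e μ * e ν
  diag : ∀ i μ, r i (e μ) = diagonal fun k => Real.exp (∑ m, W i k m * μ m)
  W_le : ∀ i k m, W i k m ≤ W i (o i) m
  W_lt : ∀ i k, k ≠ o i → W i k i + 1 ≤ W i (o i) i
  W_eq : ∀ i, ∃ k, ∀ m, W i k m = W i (o i) m - if m = i then 1 else 0
  inv : ∀ l (μ : I → ℝ), μ l = ∑ m, co l m * ∑ q, W m (o m) q * μ q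
  kak : ∀ g, ∃ k1 ∈ K, ∃ k2 ∈ K, ∃ μ : I → ℝ, (∀ i, 0 ≤ μ i) ∧ g = k1 * e μ * k2
  stab : ∀ j g, g ∈ P j ↔ ∀ i, i ≠ o j → r j g i (o j) = 0
  e_Pm : ∀ j μ, e μ ∈ Pm j
  cP : ∀ j, ∀ C : Set GG, IsCompact C → ∃ C' : Set GG, IsCompact C' ∧ ∀ s, 0 ≤ s → ∀ p ∈ P j, p ∈ C →
    (e (Pi.single j s))⁻¹ * p * e (Pi.single j s) ∈ C'
  cPm : ∀ j, ∀ C : Set GG, IsCompact C → ∃ C' : Set GG, IsCompact C' ∧ ∀ s, 0 ≤ s → ∀ p ∈ Pm j, p ∈ C →
    e (Pi.single j s) * p * (e (Pi.single j s))⁻¹ ∈ C'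
  nbhd : ∀ j, {g | ∃ q ∈ Pm j, ∃ p ∈ P j, g = q * p} ∈ 𝓝 (1 : GG)
  dns : ∀ j, Dense {g | r j g (o j) (o j) ≠ 0}

namespace TG

variable {GG : Type} [Group GG] [TopologicalSpace GG] {I : Type} [Fintype I] [DecidableEq I] (T : TG GG I)

theorem e_P (j : I) (μ : I → ℝ) : T.e μ ∈ T.P j := by
  rw [T.stab]
  intro i hi
  rw [T.diag, diagonal_apply_ne _ hi]

theorem diag_single (i j : I) (s : ℝ) : T.r i (T.e (Pi.single j s)) = diagonal fun k => Real.exp (s * T.W i k j) := by
  rw [T.diag]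
  congr 1
  funext k
  congr 1
  rw [Finset.sum_eq_single j]
  · rw [Pi.single_eq_same, mul_comm]
  · intro m _ hm
    rw [Pi.single_eq_of_ne hm, mul_zero]
  · intro h
    exact absurd (Finset.mem_univ _) h

/-- A limit along the hyperfilter. -/
theorem exists_lim {GG : Type} [TopologicalSpace GG] {C : Set GG} (hC : IsCompact C) {k : ℕ → GG} (hk : ∀ n, k n ∈ C) :
    ∃ x ∈ C, Tendsto k (hyperfilter ℕ : Filter ℕ) (𝓝 x) := by
  have h1 : ((hyperfilter ℕ).map k : Filter GG) ≤ 𝓟 C := by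
    rw [le_principal_iff, Ultrafilter.coe_map, mem_map]
    exact Filter.univ_mem' fun m => hk m
  obtain ⟨x, hx, hx'⟩ := hC.ultrafilter_le_nhds ((hyperfilter ℕ).map k) h1
  exact ⟨x, hx, hx'⟩

/-- A nonzero diagonal matrix of rank one whose largest entry is at `o`. -/
theorem rank_one {m : Type} [DecidableEq m] {y x : m → ℝ} {o : m} (hd : ∀ a b, a ≠ b → y a * x b = 0)
    (hm : ∀ a, |y a * x a| ≤ y o * x o) (hx : ∃ b, x b ≠ 0) : ∀ a, a ≠ o → y a = 0 := by
  intro a ha
  by_contra hya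
  obtain ⟨b, hb⟩ := hx
  have hab : a = b := by
    by_contra hne
    have := hd a b hne
    exact (mul_ne_zero hya hb) this
  subst hab
  have h1 : 0 < y o * x o := lt_of_lt_of_le (abs_pos.2 (mul_ne_zero hya hb)) (hm a)
  have h2 : x o ≠ 0 := fun h => by rw [h, mul_zero] at h1; exact lt_irrefl _ h1
  exact (mul_ne_zero hya h2) (hd a o ha)

theorem KP [IsTopologicalGroup GG] (j : I) (g : GG) : ∃ k ∈ T.K, ∃ p ∈ T.P j, g = k * p := by
  choose k1 hk1 k2 hk2 μ hμ hkak using fun m : ℕ => T.kak (g * T.e (Pi.single j (m : ℝ)))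
  obtain ⟨x1, hx1, hl1⟩ := exists_lim T.hK hk1
  obtain ⟨x2, hx2, hl2⟩ := exists_lim T.hK hk2
  have hx1' : x1 ∈ T.K := hx1
  refine ⟨x1, hx1, x1⁻¹ * g, ?_, by group⟩
  rw [T.stab]
  set w : Fin (T.n j) → ℝ := fun k => T.W j k j with hw
  set o := T.o j with ho
  -- the normalised matrices
  have hM : ∀ (m : ℕ) (a b), (T.r j (k1 m)⁻¹ * T.r j g * diagonal (fun k => Real.exp (m * (w k - w o))) * T.r j (k2 m)⁻¹) a b =
      Real.exp (-(m * w o)) * (T.r j (T.e (μ m))) a b := by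
    intro m a b
    have h1 : T.r j (T.e (μ m)) = T.r j (k1 m)⁻¹ * T.r j g * T.r j (T.e (Pi.single j (m : ℝ))) * T.r j (k2 m)⁻¹ := by
      rw [← map_mul, ← map_mul, ← map_mul]
      congr 1
      have h2 := hkak m
      have h3 : T.e (μ m) = (k1 m)⁻¹ * (k1 m * T.e (μ m) * k2 m) * (k2 m)⁻¹ := by group
      rw [h3, ← h2]
      group
    have h4 : diagonal (fun k => Real.exp (m * (w k - w o))) = Real.exp (-(m * w o)) • T.r j (T.e (Pi.single j (m : ℝ))) := by
      rw [T.diag_single, ← diagonal_smul]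
      congr 1
      funext k
      rw [Pi.smul_apply, smul_eq_mul, ← Real.exp_add]
      congr 1
      ring
    rw [h4, h1, Matrix.mul_smul, Matrix.smul_mul, Matrix.smul_apply, smul_eq_mul]
  have hD' : ∀ k, Tendsto (fun m : ℕ => Real.exp ((m : ℝ) * (w k - w o))) (hyperfilter ℕ : Filter ℕ)
      (𝓝 (if k = o then (1 : ℝ) else 0)) := by
    intro k
    by_cases hk : k = o
    · rw [if_pos hk, hk]
      simp only [sub_self, mul_zero, Real.exp_zero]
      exact tendsto_const_nhds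
    · rw [if_neg hk]
      have h3 : Tendsto (fun m : ℕ => (m : ℝ) * (w k - w o)) atTop atBot := by
        have := T.W_lt j k hk
        exact tendsto_natCast_atTop_atTop.atTop_mul_const_of_neg (by simp only [hw]; linarith)
      exact (Real.tendsto_exp_atBot.comp h3).mono_left Nat.hyperfilter_le_atTop
  have hdc : Continuous fun v : Fin (T.n j) → ℝ => (diagonal v : Matrix (Fin (T.n j)) (Fin (T.n j)) ℝ) :=
    continuous_id.matrix_diagonal
  have hD : Tendsto (fun m : ℕ => (diagonal (fun k => Real.exp ((m : ℝ) * (w k - w o))) : Matrix (Fin (T.n j)) (Fin (T.n j)) ℝ))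
      (hyperfilter ℕ : Filter ℕ) (𝓝 (diagonal fun k => if k = o then (1 : ℝ) else 0)) :=
    (hdc.tendsto _).comp (tendsto_pi_nhds.2 hD')
  have hc : Continuous fun z : GG => T.r j z⁻¹ := (T.cont j).comp continuous_inv
  have hlim : Tendsto (fun m : ℕ => T.r j (k1 m)⁻¹ * T.r j g * diagonal (fun k => Real.exp ((m : ℝ) * (w k - w o))) * T.r j (k2 m)⁻¹)
      (hyperfilter ℕ : Filter ℕ) (𝓝 (T.r j x1⁻¹ * T.r j g * (diagonal fun k => if k = o then (1 : ℝ) else 0) * T.r j x2⁻¹)) :=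
    ((((hc.tendsto x1).comp hl1).mul_const _).mul hD).mul ((hc.tendsto x2).comp hl2)
  have hent : ∀ a b, Tendsto (fun m : ℕ => Real.exp (-((m : ℝ) * w o)) * (T.r j (T.e (μ m))) a b) (hyperfilter ℕ : Filter ℕ)
      (𝓝 (T.r j (x1⁻¹ * g) a o * T.r j x2⁻¹ o b)) := by
    intro a b
    have h1 := (Continuous.matrix_elem continuous_id a b).continuousAt.tendsto.comp hlim
    have h2 : (T.r j x1⁻¹ * T.r j g * (diagonal fun k => if k = o then (1 : ℝ) else 0) * T.r j x2⁻¹) a b =
        T.r j (x1⁻¹ * g) a o * T.r j x2⁻¹ o b := by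
      rw [mul_apply, Finset.sum_eq_single o]
      · rw [mul_diagonal, if_pos rfl, mul_one, map_mul]
      · intro c _ hc
        rw [mul_diagonal, if_neg hc, mul_zero, zero_mul]
      · intro h
        exact absurd (Finset.mem_univ _) h
    rw [← h2]
    refine h1.congr fun m => ?_
    exact hM m a b
  refine rank_one (y := fun a => T.r j (x1⁻¹ * g) a o) (x := fun b => T.r j x2⁻¹ o b) (o := o) ?_ ?_ ?_
  · intro a b hab
    refine tendsto_nhds_unique (hent a b) ?_
    have : (fun m : ℕ => Real.exp (-((m : ℝ) * w o)) * (T.r j (T.e (μ m))) a b) = fun _ => 0 := by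
      funext m
      rw [T.diag, diagonal_apply_ne _ hab, mul_zero]
    rw [this]
    exact tendsto_const_nhds
  · intro a
    refine le_of_tendsto_of_tendsto (hent a a).abs (hent o o) (Filter.Eventually.of_forall fun m => ?_)
    change |Real.exp (-((m : ℝ) * w o)) * (T.r j (T.e (μ m))) a a| ≤ Real.exp (-((m : ℝ) * w o)) * (T.r j (T.e (μ m))) o o
    rw [T.diag, diagonal_apply_eq, diagonal_apply_eq, abs_mul, Real.abs_exp, Real.abs_exp]
    refine mul_le_mul_of_nonneg_left (Real.exp_le_exp.2 ?_) (Real.exp_pos _).le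
    exact Finset.sum_le_sum fun q _ => mul_le_mul_of_nonneg_right (T.W_le j a q) (hμ m q)
  · have h1 : T.r j x2 * T.r j x2⁻¹ = 1 := by rw [← map_mul, mul_inv_cancel, map_one]
    have h2 : T.r j x2⁻¹ * T.r j x2 = 1 := by rw [← map_mul, inv_mul_cancel, map_one]
    by_contra hcon
    push Not at hcon
    have h3 := congrFun (congrFun h2 o) o
    rw [mul_apply, one_apply_eq] at h3
    have h4 : ∑ b, T.r j x2⁻¹ o b * T.r j x2 b o = 0 := Finset.sum_eq_zero fun b _ => by rw [hcon b, zero_mul]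
    rw [h4] at h3
    exact zero_ne_one h3

/-- The geometry of a node. -/
def toN [IsTopologicalGroup GG] (j : I) : NGeo GG (Fin (T.n j)) where
  K := T.K
  P := T.P j
  Pm := T.Pm j
  a := fun s => T.e (Pi.single j s)
  ρ := T.r j
  o := T.o j
  w := fun k => T.W j k j
  hK := T.hK
  a_add := fun s t => by rw [Pi.single_add, T.e_add]
  a_P := fun s => T.e_P j _
  a_Pm := fun s => T.e_Pm j _
  cP := T.cP j
  cPm := T.cPm j
  clPm := T.clPm j
  cont := T.cont j
  orth := T.orth j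
  diag := T.diag_single j j
  top := fun k hk => by
    have := T.W_lt j k hk
    linarith
  stab := T.stab j
  KP := T.KP j
  nbhd := T.nbhd j
  dns := T.dns j

end TG

end Pool.Agent.Helper64.NIG
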