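import Pool.Agent.Helper64.NIG.Defs

/-!
# Project FQ (MP_0f6f3f_an), layer NI: the big cell, compact form

`cell`: `ρ κ o o ≠ 0` implies `κ ∈ Pm P` (contraction by `a s` to the base point). `cell_compact`: on a compact set of elements with `|ρ κ o o| ≥ δ` the two factors can be taken in a compact set.
`exists_gen`: for two elements `κ, κ'` of `K` there is `m ∈ K` with `|ρ (κ m) o o|, |ρ (κ' m) o o| ≥ δ'`.
-/

set_option autoImplicit false

open Filter Topology Matrix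

namespace Pool.Agent.Helper64.NIG

namespace NGeo

variable {GG : Type} [Group GG] [TopologicalSpace GG] {ι : Type} [Fintype ι] [DecidableEq ι] (D : NGeo GG ι)

theorem col (k : GG) (hk : k ∈ D.K) (j : ι) : ∑ i, D.ρ k i j ^ 2 = 1 := by
  have h := congrFun (congrFun (D.orth k hk) j) j
  rw [mul_apply, one_apply_eq] at h
  rw [← h]
  exact Finset.sum_congr rfl fun i _ => by rw [transpose_apply, sq]

theorem ent (k : GG) (hk : k ∈ D.K) (i j : ι) : |D.ρ k i j| ≤ 1 := by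
  have h := D.col k hk j
  have h1 : D.ρ k i j ^ 2 ≤ 1 := by
    rw [← h]
    exact Finset.single_le_sum (f := fun i => D.ρ k i j ^ 2) (fun i _ => sq_nonneg _) (Finset.mem_univ i)
  exact (sq_le_one_iff_abs_le_one _).1 h1

theorem P_o {p : GG} (hp : p ∈ D.P) {i : ι} (hi : i ≠ D.o) : D.ρ p i D.o = 0 := (D.stab p).1 hp i hi

/-- The product with an element of `P`: the first column is multiplied by a scalar. -/
theorem mul_P (g : GG) {p : GG} (hp : p ∈ D.P) (i : ι) : D.ρ (g * p) i D.o = D.ρ g i D.o * D.ρ p D.o D.o := by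
  rw [map_mul, mul_apply, Finset.sum_eq_single D.o]
  · intro j _ hj
    rw [D.P_o hp hj, mul_zero]
  · intro h
    exact absurd (Finset.mem_univ _) h

theorem P_oo {p : GG} (hp : p ∈ D.P) : D.ρ p D.o D.o ≠ 0 := by
  intro h0
  have h := D.mul_P p⁻¹ hp D.o
  rw [inv_mul_cancel, map_one, one_apply_eq, h0, mul_zero] at h
  exact one_ne_zero h

theorem a_mul (s : ℝ) (g : GG) (i j : ι) : D.ρ (D.a s * g) i j = Real.exp (s * D.w i) * D.ρ g i j := by
  rw [map_mul, D.diag, diagonal_mul]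

theorem clP [T1Space (Matrix ι ι ℝ)] : IsClosed (D.P : Set GG) := by
  have h : (D.P : Set GG) = ⋂ i : {i : ι // i ≠ D.o}, {g | D.ρ g i D.o = 0} := by
    ext g
    simp only [SetLike.mem_coe, D.stab g, Set.mem_iInter, Set.mem_ofPred_eq, Subtype.forall]
  rw [h]
  refine isClosed_iInter fun i => ?_
  exact isClosed_eq (D.cont.matrix_elem _ _) continuous_const

/-- The big cell. -/
theorem cell [IsTopologicalGroup GG] {κ : GG} (h0 : D.ρ κ D.o D.o ≠ 0) : ∃ q ∈ D.Pm, ∃ p ∈ D.P, κ = q * p := by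
  choose k hk p hp hkp using fun m : ℕ => D.KP (D.a m * κ)
  have hlim : ∃ x ∈ D.K, Tendsto k (hyperfilter ℕ : Filter ℕ) (𝓝 x) := by
    have h1 : ((hyperfilter ℕ).map k : Filter GG) ≤ 𝓟 (D.K : Set GG) := by
      rw [le_principal_iff, Ultrafilter.coe_map, mem_map]
      exact Filter.univ_mem' fun m => hk m
    obtain ⟨x, hx, hx'⟩ := D.hK.ultrafilter_le_nhds ((hyperfilter ℕ).map k) h1
    exact ⟨x, hx, hx'⟩
  obtain ⟨x, hx, hxl⟩ := hlim
  have hent : ∀ i, i ≠ D.o → D.ρ x i D.o = 0 := by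
    intro i hi
    have hc : Tendsto (fun m => D.ρ (k m) i D.o) (hyperfilter ℕ : Filter ℕ) (𝓝 (D.ρ x i D.o)) :=
      ((D.cont.matrix_elem i D.o).tendsto x).comp hxl
    have h1 : ∀ m : ℕ, |D.ρ (k m) i D.o| ≤ Real.exp (-(m * (D.w D.o - D.w i))) * (|D.ρ κ i D.o| / |D.ρ κ D.o D.o|) := by
      intro m
      have e1 : Real.exp (m * D.w i) * D.ρ κ i D.o = D.ρ (k m) i D.o * D.ρ (p m) D.o D.o := by
        rw [← D.a_mul, ← D.mul_P _ (hp m), ← hkp m]
      have e2 : Real.exp (m * D.w D.o) * D.ρ κ D.o D.o = D.ρ (k m) D.o D.o * D.ρ (p m) D.o D.o := by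
        rw [← D.a_mul, ← D.mul_P _ (hp m), ← hkp m]
      have e3 : Real.exp (m * D.w D.o) * |D.ρ κ D.o D.o| ≤ |D.ρ (p m) D.o D.o| := by
        have := congrArg abs e2
        rw [abs_mul, abs_mul, Real.abs_exp] at this
        rw [this]
        exact mul_le_of_le_one_left (abs_nonneg _) (D.ent _ (hk m) _ _)
      have e4 : Real.exp (m * D.w i) * |D.ρ κ i D.o| = |D.ρ (k m) i D.o| * |D.ρ (p m) D.o D.o| := by
        have := congrArg abs e1
        rwa [abs_mul, abs_mul, Real.abs_exp] at this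
      have hpos : 0 < Real.exp (m * D.w D.o) * |D.ρ κ D.o D.o| := mul_pos (Real.exp_pos _) (abs_pos.2 h0)
      have e5 : |D.ρ (k m) i D.o| * (Real.exp (m * D.w D.o) * |D.ρ κ D.o D.o|) ≤ Real.exp (m * D.w i) * |D.ρ κ i D.o| := by
        rw [e4]
        exact mul_le_mul_of_nonneg_left e3 (abs_nonneg _)
      have e6 : |D.ρ (k m) i D.o| ≤ (Real.exp (m * D.w i) * |D.ρ κ i D.o|) / (Real.exp (m * D.w D.o) * |D.ρ κ D.o D.o|) :=
        (le_div_iff₀ hpos).2 e5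
      refine e6.trans (le_of_eq ?_)
      have e7 : Real.exp (-(m * (D.w D.o - D.w i))) = Real.exp (m * D.w i) / Real.exp (m * D.w D.o) := by
        rw [← Real.exp_sub]
        congr 1
        ring
      rw [e7]
      field_simp
    have h2 : Tendsto (fun m : ℕ => Real.exp (-(m * (D.w D.o - D.w i))) * (|D.ρ κ i D.o| / |D.ρ κ D.o D.o|)) atTop (𝓝 0) := by
      have h3 : Tendsto (fun m : ℕ => -((m : ℝ) * (D.w D.o - D.w i))) atTop atBot := by
        rw [tendsto_neg_atBot_iff]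
        exact tendsto_natCast_atTop_atTop.atTop_mul_const (sub_pos.2 (D.top i hi))
      have h4 := (Real.tendsto_exp_atBot.comp h3).mul_const (|D.ρ κ i D.o| / |D.ρ κ D.o D.o|)
      rwa [zero_mul] at h4
    have h3 : Tendsto (fun m => D.ρ (k m) i D.o) (hyperfilter ℕ : Filter ℕ) (𝓝 0) :=
      squeeze_zero_norm h1 (h2.mono_left Nat.hyperfilter_le_atTop)
    exact tendsto_nhds_unique hc h3
  have hxP : x ∈ D.P := (D.stab x).2 hent
  have hl : Tendsto (fun m => k m * x⁻¹) (hyperfilter ℕ : Filter ℕ) (𝓝 1) := by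
    have := hxl.mul_const x⁻¹
    rwa [mul_inv_cancel] at this
  obtain ⟨m, q, hq, p', hp', hm⟩ := (hl.eventually D.nbhd).exists
  refine ⟨(D.a m)⁻¹ * q, D.Pm.mul_mem (D.Pm.inv_mem (D.a_Pm m)) hq, p' * x * p m,
    D.P.mul_mem (D.P.mul_mem hp' hxP) (hp m), ?_⟩
  have e1 : k m = q * p' * x := by rw [← hm]; group
  have e2 : D.a m * κ = q * p' * x * p m := by rw [hkp m, e1]
  have e3 : κ = (D.a m)⁻¹ * (D.a m * κ) := by group
  rw [e3, e2]
  group

/-- The neighbourhood of `1` in the big cell, bounded form. -/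
theorem nbhd_compact [IsTopologicalGroup GG] [T2Space GG] [LocallyCompactSpace GG] [SigmaCompactSpace GG] :
    ∃ B : Set GG, IsCompact B ∧ {g | ∃ q ∈ D.Pm, q ∈ B ∧ ∃ p ∈ D.P, p ∈ B ∧ g = q * p} ∈ 𝓝 (1 : GG) := by
  obtain ⟨V, hV1, hV2, hV3⟩ := (LocallyCompactSpace.local_compact_nhds (1 : GG) _ D.nbhd)
  let B : ℕ → Set GG := compactCovering GG
  have hB : ∀ m, IsCompact (B m) := isCompact_compactCovering GG
  let T : ℕ → Set GG := fun m => (fun x : GG × GG => x.1 * x.2) '' (((D.Pm : Set GG) ∩ B m) ×ˢ ((D.P : Set GG) ∩ B m))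
  have hT : ∀ m, IsCompact (T m) := fun m =>
    (((hB m).inter_left D.clPm).prod ((hB m).inter_left D.clP)).image continuous_mul
  have hcov : interior V ⊆ ⋃ m, T m := by
    intro g hg
    obtain ⟨q, hq, p, hp, rfl⟩ := hV2 (interior_subset hg)
    have h1 : q ∈ ⋃ m, B m := by rw [iUnion_compactCovering]; trivial
    have h2 : p ∈ ⋃ m, B m := by rw [iUnion_compactCovering]; trivial
    obtain ⟨m1, hm1⟩ := Set.mem_iUnion.1 h1
    obtain ⟨m2, hm2⟩ := Set.mem_iUnion.1 h2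
    refine Set.mem_iUnion.2 ⟨max m1 m2, ⟨(q, p), ⟨⟨hq, ?_⟩, ⟨hp, ?_⟩⟩, rfl⟩⟩
    · exact compactCovering_subset GG (le_max_left _ _) hm1
    · exact compactCovering_subset GG (le_max_right _ _) hm2
  have hne : (interior V).Nonempty := ⟨1, mem_interior_iff_mem_nhds.2 hV1⟩
  obtain ⟨m, hm⟩ : ∃ m, (interior (T m)).Nonempty := by
    by_contra hcon
    push Not at hcon
    have h1 : (⋃ m, T m ∪ (interior V)ᶜ) = Set.univ := by
      refine Set.eq_univ_of_forall fun x => ?_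
      by_cases hx : x ∈ interior V
      · obtain ⟨m, hm⟩ := Set.mem_iUnion.1 (hcov hx)
        exact Set.mem_iUnion.2 ⟨m, Or.inl hm⟩
      · exact Set.mem_iUnion.2 ⟨0, Or.inr hx⟩
    have h2 := dense_iUnion_interior_of_closed (f := fun m => T m ∪ (interior V)ᶜ)
      (fun m => (hT m).isClosed.union isOpen_interior.isClosed_compl) h1
    obtain ⟨x, hx1, hx2⟩ := h2.inter_open_nonempty (interior V) isOpen_interior hne
    obtain ⟨m, hm⟩ := Set.mem_iUnion.1 hx2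
    have h3 : interior (T m ∪ (interior V)ᶜ) ∩ interior V ⊆ interior (T m) := by
      refine interior_maximal ?_ (isOpen_interior.inter isOpen_interior)
      rintro y ⟨hy1, hy2⟩
      rcases interior_subset hy1 with hy | hy
      · exact hy
      · exact absurd hy2 hy
    have h4 : x ∈ interior (T m) := h3 ⟨hm, hx1⟩
    rw [hcon m] at h4
    exact h4
  obtain ⟨x, hx⟩ := hm
  obtain ⟨⟨q0, p0⟩, ⟨⟨hq0, -⟩, ⟨hp0, -⟩⟩, hx0⟩ := interior_subset hx
  refine ⟨(fun y => q0⁻¹ * y) '' B m ∪ (fun y => y * p0⁻¹) '' B m,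
    ((hB m).image (continuous_const.mul continuous_id)).union ((hB m).image (continuous_id.mul continuous_const)), ?_⟩
  have hn : (fun y => q0 * y * p0) ⁻¹' (interior (T m)) ∈ 𝓝 (1 : GG) := by
    have hc : Continuous fun y : GG => q0 * y * p0 := (continuous_const.mul continuous_id).mul continuous_const
    refine (isOpen_interior.preimage hc).mem_nhds ?_
    change q0 * 1 * p0 ∈ interior (T m)
    rw [mul_one]
    have : q0 * p0 = x := hx0
    rwa [this]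
  filter_upwards [hn] with y hy
  obtain ⟨⟨q, p⟩, ⟨⟨hq, hqB⟩, ⟨hp, hpB⟩⟩, hy'⟩ := interior_subset hy
  have hy2 : q * p = q0 * y * p0 := hy'
  refine ⟨q0⁻¹ * q, D.Pm.mul_mem (D.Pm.inv_mem hq0) hq, Or.inl ⟨q, hqB, rfl⟩, p * p0⁻¹,
    D.P.mul_mem hp (D.P.inv_mem hp0), Or.inr ⟨p, hpB, rfl⟩, ?_⟩
  have e1 : y = q0⁻¹ * (q0 * y * p0) * p0⁻¹ := by group
  rw [e1, ← hy2]
  group

/-- The big cell, compact form. -/
theorem cell_compact [IsTopologicalGroup GG] [T2Space GG] [LocallyCompactSpace GG] [SigmaCompactSpace GG] {C : Set GG}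
    (hC : IsCompact C) {δ : ℝ} (hδ : 0 < δ) : ∃ B : Set GG, IsCompact B ∧ ∀ κ ∈ C, δ ≤ |D.ρ κ D.o D.o| →
      ∃ q ∈ D.Pm, q ∈ B ∧ ∃ p ∈ D.P, p ∈ B ∧ κ = q * p := by
  obtain ⟨B0, hB0, hn⟩ := D.nbhd_compact
  have hS : IsCompact (C ∩ {κ | δ ≤ |D.ρ κ D.o D.o|}) :=
    hC.inter_right (isClosed_le continuous_const (D.cont.matrix_elem _ _).abs)
  have hcell : ∀ x : (C ∩ {κ | δ ≤ |D.ρ κ D.o D.o|} : Set GG), ∃ q ∈ D.Pm, ∃ p ∈ D.P, (x : GG) = q * p := fun x =>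
    D.cell fun h0 => by
      have := x.2.2
      rw [Set.mem_ofPred_eq, h0, abs_zero] at this
      exact absurd this (not_le.2 hδ)
  choose q hq p hp hx using hcell
  have hnb : ∀ x : (C ∩ {κ | δ ≤ |D.ρ κ D.o D.o|} : Set GG), (fun y => (q x)⁻¹ * y * (p x)⁻¹) ⁻¹'
      {g | ∃ q ∈ D.Pm, q ∈ B0 ∧ ∃ p ∈ D.P, p ∈ B0 ∧ g = q * p} ∈ 𝓝 (x : GG) := by
    intro x
    have hc : Continuous fun y : GG => (q x)⁻¹ * y * (p x)⁻¹ := (continuous_const.mul continuous_id).mul continuous_const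
    refine hc.continuousAt.preimage_mem_nhds ?_
    have e1 : (q x)⁻¹ * (x : GG) * (p x)⁻¹ = 1 := by rw [hx x]; group
    rw [e1]
    exact hn
  obtain ⟨t, ht⟩ := hS.elim_nhds_subcover' (fun x hx => (fun y => (q ⟨x, hx⟩)⁻¹ * y * (p ⟨x, hx⟩)⁻¹) ⁻¹'
      {g | ∃ q ∈ D.Pm, q ∈ B0 ∧ ∃ p ∈ D.P, p ∈ B0 ∧ g = q * p}) (fun x hx => hnb ⟨x, hx⟩)
  refine ⟨⋃ x ∈ t, ((fun y => q x * y) '' B0 ∪ (fun y => y * p x) '' B0), ?_, ?_⟩
  · refine t.finite_toSet.isCompact_biUnion fun x _ => ?_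
    exact (hB0.image (continuous_const.mul continuous_id)).union (hB0.image (continuous_id.mul continuous_const))
  · intro κ hκ hκδ
    obtain ⟨x, hxt, hκx⟩ := Set.mem_iUnion₂.1 (ht ⟨hκ, hκδ⟩)
    obtain ⟨q', hq', hqB, p', hp', hpB, he⟩ := hκx
    refine ⟨q x * q', D.Pm.mul_mem (hq x) hq', Set.mem_biUnion hxt (Or.inl ⟨q', hqB, rfl⟩), p' * p x,
      D.P.mul_mem hp' (hp x), Set.mem_biUnion hxt (Or.inr ⟨p', hpB, rfl⟩), ?_⟩
    have e1 : κ = q x * ((q x)⁻¹ * κ * (p x)⁻¹) * p x := by group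
    have he' : (q x)⁻¹ * κ * (p x)⁻¹ = q' * p' := he
    rw [e1, he']
    group

/-- A generic element. -/
theorem exists_gen [IsTopologicalGroup GG] : ∃ δ : ℝ, 0 < δ ∧ ∀ κ ∈ D.K, ∀ κ' ∈ D.K, ∃ m ∈ D.K,
    δ ≤ |D.ρ (κ * m) D.o D.o| ∧ δ ≤ |D.ρ (κ' * m) D.o D.o| := by
  by_contra hcon
  push Not at hcon
  choose κ hκ κ' hκ' hm using fun n : ℕ => hcon (1 / ((n : ℝ) + 1)) (by positivity)
  have hlim : ∀ k : ℕ → GG, (∀ n, k n ∈ D.K) → ∃ x ∈ D.K, Tendsto k (hyperfilter ℕ : Filter ℕ) (𝓝 x) := by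
    intro k hk
    have h1 : ((hyperfilter ℕ).map k : Filter GG) ≤ 𝓟 (D.K : Set GG) := by
      rw [le_principal_iff, Ultrafilter.coe_map, mem_map]
      exact Filter.univ_mem' fun m => hk m
    obtain ⟨x, hx, hx'⟩ := D.hK.ultrafilter_le_nhds ((hyperfilter ℕ).map k) h1
    exact ⟨x, hx, hx'⟩
  obtain ⟨x, hx, hxl⟩ := hlim κ hκ
  obtain ⟨y, hy, hyl⟩ := hlim κ' hκ'
  have hop : ∀ z : GG, IsOpen {g | D.ρ (z * g) D.o D.o ≠ 0} := fun z =>
    isOpen_ne.preimage ((D.cont.comp (continuous_const.mul continuous_id)).matrix_elem D.o D.o)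
  have hde : ∀ z : GG, Dense {g | D.ρ (z * g) D.o D.o ≠ 0} := fun z =>
    D.dns.preimage (Homeomorph.mulLeft z).isOpenMap
  obtain ⟨g, hg⟩ := ((hde x).inter_of_isOpen_left (hde y) (hop x)).nonempty
  obtain ⟨m, hmK, p, hp, rfl⟩ := D.KP g
  have hmx : D.ρ (x * m) D.o D.o ≠ 0 := by
    have h1 := hg.1
    rw [Set.mem_ofPred_eq, ← mul_assoc, D.mul_P _ hp] at h1
    exact left_ne_zero_of_mul h1
  have hmy : D.ρ (y * m) D.o D.o ≠ 0 := by
    have h1 := hg.2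
    rw [Set.mem_ofPred_eq, ← mul_assoc, D.mul_P _ hp] at h1
    exact left_ne_zero_of_mul h1
  have t1 : Tendsto (fun n => |D.ρ (κ n * m) D.o D.o|) (hyperfilter ℕ : Filter ℕ) (𝓝 |D.ρ (x * m) D.o D.o|) :=
    ((((D.cont.matrix_elem D.o D.o).tendsto _).comp (hxl.mul_const m))).abs
  have t2 : Tendsto (fun n => |D.ρ (κ' n * m) D.o D.o|) (hyperfilter ℕ : Filter ℕ) (𝓝 |D.ρ (y * m) D.o D.o|) :=
    ((((D.cont.matrix_elem D.o D.o).tendsto _).comp (hyl.mul_const m))).abs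
  have t0 : Tendsto (fun n : ℕ => 1 / ((n : ℝ) + 1)) (hyperfilter ℕ : Filter ℕ) (𝓝 0) :=
    tendsto_one_div_add_atTop_nhds_zero_nat.mono_left Nat.hyperfilter_le_atTop
  have c1 := t0.eventually (gt_mem_nhds (half_pos (abs_pos.2 hmx)))
  have c2 := t0.eventually (gt_mem_nhds (half_pos (abs_pos.2 hmy)))
  have c3 := t1.eventually (lt_mem_nhds (half_lt_self (abs_pos.2 hmx)))
  have c4 := t2.eventually (lt_mem_nhds (half_lt_self (abs_pos.2 hmy)))
  obtain ⟨n, ⟨h1, h2⟩, h3, h4⟩ := ((c1.and c2).and (c3.and c4)).exists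
  have h5 := hm n m hmK (h1.trans h3).le
  exact absurd (h2.trans h4) (not_lt.2 h5.le)

end NGeo

end Pool.Agent.Helper64.NIG
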